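import Mathlib

/-! Combinatorial part of an on-line chain partition theorem for orders of bounded width. -/

set_option autoImplicit false

namespace Pool.Agent.RecDim

def Inc (le : ℕ → ℕ → Prop) (x y : ℕ) : Prop := ¬ le x y ∧ ¬ le y x

theorem Inc.symm {le : ℕ → ℕ → Prop} {x y : ℕ} (h : Inc le x y) : Inc le y x := ⟨h.2, h.1⟩

def Anti (le : ℕ → ℕ → Prop) (s : Finset ℕ) : Prop := ∀ x ∈ s, ∀ y ∈ s, x ≠ y → Inc le x y

def Width (le : ℕ → ℕ → Prop) (P : ℕ → Prop) (w : ℕ) : Prop :=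
  ∀ s : Finset ℕ, (∀ x ∈ s, P x) → Anti le s → s.card ≤ w

def W (le : ℕ → ℕ → Prop) (A : ℕ → Prop) (k x : ℕ) (s : Finset ℕ) : Prop :=
  s.card = k + 1 ∧ (∀ y ∈ s, y < x ∧ A y ∧ Inc le y x) ∧ Anti le s

structure PO (le : ℕ → ℕ → Prop) : Prop where
  refl : ∀ x, le x x
  anti : ∀ x y, le x y → le y x → x = y
  trans : ∀ x y z, le x y → le y z → le x z

theorem Anti.insert {le : ℕ → ℕ → Prop} {s : Finset ℕ} (h : Anti le s) {x : ℕ}
    (hx : ∀ y ∈ s, Inc le y x) : Anti le (insert x s) := by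
  intro a ha b hb hab
  rw [Finset.mem_insert] at ha hb
  rcases ha with rfl | ha <;> rcases hb with rfl | hb
  · exact absurd rfl hab
  · exact (hx b hb).symm
  · exact hx a ha
  · exact h a ha b hb hab

theorem Anti.mono {le : ℕ → ℕ → Prop} {s t : Finset ℕ} (h : Anti le s) (hts : t ⊆ s) :
    Anti le t := fun a ha b hb hab => h a (hts ha) b (hts hb) hab

theorem not_mem_of_inc {le : ℕ → ℕ → Prop} (po : PO le) {s : Finset ℕ} {x : ℕ}
    (hx : ∀ y ∈ s, Inc le y x) : x ∉ s := fun h => (hx x h).1 (po.refl x)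

/-- adding one more element to an antichain of maximal size is impossible -/
theorem no_insert {le : ℕ → ℕ → Prop} (po : PO le) {P : ℕ → Prop} {w : ℕ} (hw : Width le P w)
    {s : Finset ℕ} (hs : ∀ y ∈ s, P y) (ha : Anti le s) {x : ℕ} (hx : P x)
    (hxs : ∀ y ∈ s, Inc le y x) : s.card + 1 ≤ w := by
  have h := hw (insert x s) (fun y hy => by
    rcases Finset.mem_insert.1 hy with rfl | hy
    · exact hx
    · exact hs y hy) (ha.insert hxs)
  rwa [Finset.card_insert_of_notMem (not_mem_of_inc po hxs)] at h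

theorem exists_min_rel {t : ℕ → ℕ → Prop} (htr : ∀ x y z, t x y → t y z → t x z)
    (F : Finset ℕ) : F.Nonempty → (∀ x ∈ F, ∀ y ∈ F, x ≠ y → t x y ∨ t y x) →
    ∃ y ∈ F, ∀ z ∈ F, z ≠ y → t y z := by
  induction F using Finset.induction_on with
  | empty => exact fun h => absurd h Finset.not_nonempty_empty
  | insert a F ha ih =>
    intro _ htot
    rcases F.eq_empty_or_nonempty with rfl | hF
    · refine ⟨a, by simp, fun z hz hza => ?_⟩
      simp at hz
      exact absurd hz hza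
    · obtain ⟨y, hy, hmin⟩ := ih hF (fun x hx y hy => htot x (Finset.mem_insert_of_mem hx) y
        (Finset.mem_insert_of_mem hy))
      have hya : a ≠ y := fun h => ha (h ▸ hy)
      rcases htot a (Finset.mem_insert_self _ _) y (Finset.mem_insert_of_mem hy) hya with h | h
      · refine ⟨a, Finset.mem_insert_self _ _, fun z hz hza => ?_⟩
        rcases Finset.mem_insert.1 hz with rfl | hz
        · exact absurd rfl hza
        · by_cases hzy : z = y
          · exact hzy ▸ h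
          · exact htr _ _ _ h (hmin z hz hzy)
      · refine ⟨y, Finset.mem_insert_of_mem hy, fun z hz hzy => ?_⟩
        rcases Finset.mem_insert.1 hz with rfl | hz
        · exact h
        · exact hmin z hz hzy

/-- the set-up: `A` is the greedy part of width `k+1`, `R` the greedy set of representatives -/
structure Stp (le : ℕ → ℕ → Prop) (P A R : ℕ → Prop) (k : ℕ) : Prop where
  po : PO le
  wP : Width le P (k + 2)
  hA : ∀ x, A x ↔ P x ∧ ¬ ∃ s, W le A k x s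
  hR : ∀ n, R n ↔ P n ∧ ¬ A n ∧ ∀ r, r < n → R r → ∀ p, p < n → A p → Inc le p n →
    Inc le p r → False

namespace Stp

variable {le : ℕ → ℕ → Prop} {P A R : ℕ → Prop} {k : ℕ} (S : Stp le P A R k)

include S

theorem AP {x : ℕ} (h : A x) : P x := ((S.hA x).1 h).1
theorem RP {x : ℕ} (h : R x) : P x := ((S.hR x).1 h).1
theorem RA {x : ℕ} (h : R x) : ¬ A x := ((S.hR x).1 h).2.1

theorem exW {x : ℕ} (h : P x) (h2 : ¬ A x) : ∃ s, W le A k x s := by
  by_contra h3
  exact h2 ((S.hA x).2 ⟨h, h3⟩)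

theorem wA : Width le A (k + 1) := by
  intro s hs ha
  by_contra h
  push Not at h
  obtain ⟨t, hts, htc⟩ := Finset.exists_subset_card_eq (show k + 2 ≤ s.card by omega)
  have hne : t.Nonempty := Finset.card_pos.1 (by omega)
  have hx := t.max'_mem hne
  refine ((S.hA (t.max' hne)).1 (hs _ (hts hx))).2 ⟨t.erase (t.max' hne), ?_, ?_, ?_⟩
  · rw [Finset.card_erase_of_mem hx, htc]
    rfl
  · intro y hy
    obtain ⟨hy1, hy2⟩ := Finset.mem_erase.1 hy
    exact ⟨lt_of_le_of_ne (t.le_max' y hy2) hy1, hs y (hts hy2),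
      ha y (hts hy2) _ (hts hx) hy1⟩
  · exact ha.mono ((Finset.erase_subset _ _).trans hts)

/-- an element of `A` cannot be incomparable to all elements of a witness -/
theorem no_ext {x : ℕ} {s : Finset ℕ} (hs : W le A k x s) {p : ℕ} (hp : A p)
    (h : ∀ y ∈ s, Inc le y p) : False := by
  have := no_insert S.po S.wA (fun y hy => (hs.2.1 y hy).2.1) hs.2.2 hp h
  have := hs.1
  omega

omit S in
theorem W_ne {x : ℕ} {s : Finset ℕ} (hs : W le A k x s) : ∃ p, p ∈ s :=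
  Finset.card_pos.1 (by rw [hs.1]; omega)

theorem F1 {r r' : ℕ} (hr : R r) (hr' : R r') (hne : r ≠ r') {s : Finset ℕ} (hs : W le A k r s)
    {p : ℕ} (hp : p ∈ s) : le p r' ∨ le r' p := by
  by_contra h
  push Not at h
  obtain ⟨h1, h2, h3⟩ := hs.2.1 p hp
  rcases lt_or_gt_of_ne hne with h4 | h4
  · exact ((S.hR r').1 hr').2.2 r h4 hr p (by omega) h2 h h3
  · exact ((S.hR r).1 hr).2.2 r' h4 hr' p h1 h2 h3 h

theorem dich {r r' : ℕ} (hr : R r) (hr' : R r') (hne : r ≠ r') {s : Finset ℕ}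
    (hs : W le A k r s) : (∀ p ∈ s, le p r') ∨ (∀ p ∈ s, le r' p) := by
  by_contra h
  push Not at h
  obtain ⟨⟨p, hp, hp1⟩, q, hq, hq1⟩ := h
  have h1 := (S.F1 hr hr' hne hs hp).resolve_left hp1
  have h2 := (S.F1 hr hr' hne hs hq).resolve_right hq1
  have h3 : q ≠ p := by
    rintro rfl
    exact hp1 h2
  exact (hs.2.2 q hq p hp h3).1 (S.po.trans _ _ _ h2 h1)

theorem F3a {r r' : ℕ} {s s' : Finset ℕ}
    (hs : W le A k r s) (hs' : W le A k r' s') (h : ∀ p ∈ s, le p r') (h' : ∀ p ∈ s', le p r) :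
    False := by
  obtain ⟨p', hp'⟩ := W_ne hs'
  obtain ⟨a1, a2, a3⟩ := hs'.2.1 p' hp'
  refine S.no_ext hs a2 (fun p hp => ?_)
  obtain ⟨b1, b2, b3⟩ := hs.2.1 p hp
  exact ⟨fun e => b3.1 (S.po.trans _ _ _ e (h' p' hp')),
    fun e => a3.1 (S.po.trans _ _ _ e (h p hp))⟩

theorem F3b {r r' : ℕ} {s s' : Finset ℕ}
    (hs : W le A k r s) (hs' : W le A k r' s') (h : ∀ p ∈ s, le r' p) (h' : ∀ p ∈ s', le r p) :
    False := by
  obtain ⟨p', hp'⟩ := W_ne hs'
  obtain ⟨a1, a2, a3⟩ := hs'.2.1 p' hp'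
  refine S.no_ext hs a2 (fun p hp => ?_)
  obtain ⟨b1, b2, b3⟩ := hs.2.1 p hp
  exact ⟨fun e => a3.2 (S.po.trans _ _ _ (h p hp) e),
    fun e => b3.2 (S.po.trans _ _ _ (h' p' hp') e)⟩

end Stp

/-- the linear order on the representatives -/
def T (le : ℕ → ℕ → Prop) (A R : ℕ → Prop) (k : ℕ) (r r' : ℕ) : Prop :=
  R r ∧ R r' ∧ r ≠ r' ∧ ∃ s, W le A k r s ∧ ∃ p ∈ s, le p r'

namespace Stp

variable {le : ℕ → ℕ → Prop} {P A R : ℕ → Prop} {k : ℕ} (S : Stp le P A R k)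

include S

/-- `T r r'`: the witness of `r'` is above `r` -/
theorem T_up {r r' : ℕ} (h : T le A R k r r') {s' : Finset ℕ} (hs' : W le A k r' s') :
    ∀ p ∈ s', le r p := by
  obtain ⟨hr, hr', hne, s, hs, p, hp, hpr⟩ := h
  have h1 : ∀ p ∈ s, le p r' := by
    rcases S.dich hr hr' hne hs with h | h
    · exact h
    · have h2 := S.po.anti _ _ hpr (h p hp)
      exact absurd (h2 ▸ (hs.2.1 p hp).2.1) (S.RA hr')
  rcases S.dich hr' hr (Ne.symm hne) hs' with h | h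
  · exact (S.F3a hs hs' h1 h).elim
  · exact h

/-- `T r r'`: the witness of `r` is below `r'` -/
theorem T_dn {r r' : ℕ} (h : T le A R k r r') {s : Finset ℕ} (hs : W le A k r s) :
    ∀ p ∈ s, le p r' := by
  have h0 := h
  obtain ⟨hr, hr', hne, s1, hs1, p1, hp1, hpr⟩ := h
  obtain ⟨s', hs'⟩ := S.exW (S.RP hr') (S.RA hr')
  have h1 := S.T_up h0 hs'
  rcases S.dich hr hr' hne hs with h | h
  · exact h
  · exact (S.F3b hs hs' h h1).elim

theorem T_tot {r r' : ℕ} (hr : R r) (hr' : R r') (hne : r ≠ r') :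
    T le A R k r r' ∨ T le A R k r' r := by
  obtain ⟨s, hs⟩ := S.exW (S.RP hr) (S.RA hr)
  obtain ⟨s', hs'⟩ := S.exW (S.RP hr') (S.RA hr')
  rcases S.dich hr hr' hne hs with h | h
  · obtain ⟨p, hp⟩ := W_ne hs
    exact Or.inl ⟨hr, hr', hne, s, hs, p, hp, h p hp⟩
  · rcases S.dich hr' hr (Ne.symm hne) hs' with h' | h'
    · obtain ⟨p, hp⟩ := W_ne hs'
      exact Or.inr ⟨hr', hr, Ne.symm hne, s', hs', p, hp, h' p hp⟩
    · exact (S.F3b hs hs' h h').elim

theorem T_asymm {r r' : ℕ} (h : T le A R k r r') (h' : T le A R k r' r) : False := by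
  obtain ⟨s, hs⟩ := S.exW (S.RP h.1) (S.RA h.1)
  obtain ⟨s', hs'⟩ := S.exW (S.RP h'.1) (S.RA h'.1)
  exact S.F3a hs hs' (S.T_dn h hs) (S.T_dn h' hs')

/-- two steps of `T` give `≤` -/
theorem T_two {r r' r'' : ℕ} (h : T le A R k r r') (h' : T le A R k r' r'') : le r r'' := by
  obtain ⟨s, hs⟩ := S.exW (S.RP h'.1) (S.RA h'.1)
  obtain ⟨p, hp⟩ := W_ne hs
  exact S.po.trans _ _ _ (S.T_up h hs p hp) (S.T_dn h' hs p hp)

theorem T_trans {r r' r'' : ℕ} (h : T le A R k r r') (h' : T le A R k r' r'') :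
    T le A R k r r'' := by
  have hne : r ≠ r'' := by
    rintro rfl
    exact S.T_asymm h h'
  rcases S.T_tot h.1 h'.2.1 hne with h1 | h1
  · exact h1
  · obtain ⟨s, hs⟩ := S.exW (S.RP h.1) (S.RA h.1)
    obtain ⟨p, hp⟩ := W_ne hs
    have h2 := S.T_up h1 hs p hp
    exact absurd (S.po.trans _ _ _ (S.T_two h h') h2) (hs.2.1 p hp).2.2.2

end Stp

/-- `Path t R j n x y`: a chain of `t` with `j` intermediate elements of `R` below `n` -/
def Path (t : ℕ → ℕ → Prop) (R : ℕ → Prop) : ℕ → ℕ → ℕ → ℕ → Prop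
  | 0, _, x, y => t x y
  | (j + 1), n, x, y => ∃ u, u < n ∧ R u ∧ t x u ∧ Path t R j n u y

namespace Stp

variable {le : ℕ → ℕ → Prop} {P A R : ℕ → Prop} {k : ℕ} (S : Stp le P A R k)

include S

theorem upPath (n : ℕ) : ∀ (j x : ℕ) (F : Finset ℕ), F.card = j + 1 →
    (∀ y ∈ F, y < n ∧ R y ∧ T le A R k x y) → ∃ y ∈ F, Path (T le A R k) R j n x y := by
  intro j
  induction j with
  | zero =>
    intro x F hF h
    obtain ⟨y, hy⟩ : F.Nonempty := Finset.card_pos.1 (by omega)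
    exact ⟨y, hy, (h y hy).2.2⟩
  | succ j ih =>
    intro x F hF h
    obtain ⟨y, hy, hmin⟩ := exists_min_rel (t := T le A R k) (fun a b c => S.T_trans) F
      (Finset.card_pos.1 (by omega)) (fun a ha b hb => S.T_tot (h a ha).2.1 (h b hb).2.1)
    obtain ⟨z, hz, hzp⟩ := ih y (F.erase y) (by rw [Finset.card_erase_of_mem hy, hF]; rfl)
      (fun z hz => by
        obtain ⟨h1, h2⟩ := Finset.mem_erase.1 hz
        exact ⟨(h z h2).1, (h z h2).2.1, hmin z h2 h1⟩)
    exact ⟨z, Finset.mem_of_mem_erase hz, y, (h y hy).1, (h y hy).2.1, (h y hy).2.2, hzp⟩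

theorem dnPath (n : ℕ) : ∀ (j x : ℕ) (F : Finset ℕ), F.card = j + 1 →
    (∀ y ∈ F, y < n ∧ R y ∧ T le A R k y x) → ∃ y ∈ F, Path (T le A R k) R j n y x := by
  intro j
  induction j with
  | zero =>
    intro x F hF h
    obtain ⟨y, hy⟩ : F.Nonempty := Finset.card_pos.1 (by omega)
    exact ⟨y, hy, (h y hy).2.2⟩
  | succ j ih =>
    intro x F hF h
    obtain ⟨y, hy, hmin⟩ := exists_min_rel (t := T le A R k) (fun a b c => S.T_trans) F
      (Finset.card_pos.1 (by omega)) (fun a ha b hb => S.T_tot (h a ha).2.1 (h b hb).2.1)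
    obtain ⟨z, hz, hzp⟩ := ih x (F.erase y) (by rw [Finset.card_erase_of_mem hy, hF]; rfl)
      (fun z hz => h z (Finset.mem_of_mem_erase hz))
    obtain ⟨h1, h2⟩ := Finset.mem_erase.1 hz
    exact ⟨y, hy, z, (h z h2).1, (h z h2).2.1, hmin z h2 h1, hzp⟩

/-- the greedy colouring of `R` needs at most 23 colours -/
theorem greedy {n : ℕ} (hn : R n) (nc : ℕ → ℕ) :
    ∃ c, c < 23 ∧ ∀ r, r < n → R r ∧ nc r = c →
      Path (T le A R k) R 11 n n r ∨ Path (T le A R k) R 11 n r n := by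
  classical
  by_contra hcon
  push Not at hcon
  have hcon' : ∀ c : ℕ, c < 23 → ∃ r, r < n ∧ R r ∧ nc r = c ∧
      ¬ Path (T le A R k) R 11 n n r ∧ ¬ Path (T le A R k) R 11 n r n := by
    intro c hc
    obtain ⟨r, h1, ⟨h2, h3⟩, h4, h5⟩ := hcon c hc
    exact ⟨r, h1, h2, h3, h4, h5⟩
  choose! g hg using hcon'
  let F : Finset ℕ := (Finset.range 23).image g
  have hF : F.card = 23 := by
    rw [Finset.card_image_of_injOn, Finset.card_range]
    intro a ha b hb hab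
    have h1 := (hg a (by simpa using ha)).2.2.1
    have h2 := (hg b (by simpa using hb)).2.2.1
    have h3 : g a = g b := hab
    rw [← h1, ← h2, h3]
  have hFm : ∀ r ∈ F, r < n ∧ R r ∧ ¬ Path (T le A R k) R 11 n n r ∧
      ¬ Path (T le A R k) R 11 n r n := by
    intro r hr
    obtain ⟨c, hc, rfl⟩ := Finset.mem_image.1 hr
    obtain ⟨h1, h2, _, h4, h5⟩ := hg c (by simpa using hc)
    exact ⟨h1, h2, h4, h5⟩
  have hsplit := Finset.card_filter_add_card_filter_not (s := F) (fun r => T le A R k n r)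
  rw [hF] at hsplit
  have hcase : 12 ≤ (F.filter (fun r => T le A R k n r)).card ∨
      12 ≤ (F.filter (fun r => ¬ T le A R k n r)).card := by omega
  rcases hcase with h | h
  · obtain ⟨t, hts, htc⟩ := Finset.exists_subset_card_eq h
    obtain ⟨y, hy, hp⟩ := S.upPath n 11 n t htc (fun y hy => by
      obtain ⟨h1, h2⟩ := Finset.mem_filter.1 (hts hy)
      exact ⟨(hFm y h1).1, (hFm y h1).2.1, h2⟩)
    exact (hFm y (Finset.mem_filter.1 (hts hy)).1).2.2.1 hp
  · obtain ⟨t, hts, htc⟩ := Finset.exists_subset_card_eq h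
    obtain ⟨y, hy, hp⟩ := S.dnPath n 11 n t htc (fun y hy => by
      obtain ⟨h1, h2⟩ := Finset.mem_filter.1 (hts hy)
      refine ⟨(hFm y h1).1, (hFm y h1).2.1, ?_⟩
      exact (S.T_tot hn (hFm y h1).2.1 (by have := (hFm y h1).1; omega)).resolve_left h2)
    exact (hFm y (Finset.mem_filter.1 (hts hy)).1).2.2.2 hp

/-! ### separation -/

theorem F6 {r r1 r2 p : ℕ} (h1 : T le A R k r r1) (h2 : T le A R k r1 r2) (hp : A p)
    (hpr : Inc le p r) : le p r2 := by
  obtain ⟨s, hs⟩ := S.exW (S.RP h2.1) (S.RA h2.1)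
  by_contra h
  by_cases h3 : le r2 p
  · exact hpr.2 (S.po.trans _ _ _ (S.T_two h1 h2) h3)
  · refine S.no_ext hs hp (fun q hq => ⟨fun e => ?_, fun e => ?_⟩)
    · exact hpr.2 (S.po.trans _ _ _ (S.T_up h1 hs q hq) e)
    · exact h (S.po.trans _ _ _ e (S.T_dn h2 hs q hq))

theorem F6' {r r1 r2 p : ℕ} (h1 : T le A R k r1 r) (h2 : T le A R k r2 r1) (hp : A p)
    (hpr : Inc le p r) : le r2 p := by
  obtain ⟨s, hs⟩ := S.exW (S.RP h1.1) (S.RA h1.1)
  by_contra h
  by_cases h3 : le p r2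
  · exact hpr.1 (S.po.trans _ _ _ h3 (S.T_two h2 h1))
  · refine S.no_ext hs hp (fun q hq => ⟨fun e => ?_, fun e => ?_⟩)
    · exact h (S.po.trans _ _ _ (S.T_up h2 hs q hq) e)
    · exact hpr.1 (S.po.trans _ _ _ e (S.T_dn h1 hs q hq))

theorem F7 {x y1 y2 y3 y z : ℕ} (h1 : T le A R k x y1) (h2 : T le A R k y1 y2)
    (h3 : T le A R k y2 y3) (h4 : T le A R k y3 y) (hz : P z) (hzx : Inc le z x)
    (hzy : Inc le z y) : False := by
  have hx2 := S.T_trans h1 h2
  have h2y := S.T_trans h3 h4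
  obtain ⟨s, hs⟩ := S.exW (S.RP h3.1) (S.RA h3.1)
  have hzs : ∀ q ∈ s, Inc le q z := fun q hq =>
    ⟨fun e => hzx.2 (S.po.trans _ _ _ (S.T_up hx2 hs q hq) e),
      fun e => hzy.1 (S.po.trans _ _ _ e (S.T_dn h2y hs q hq))⟩
  have hzy2 : Inc le z y2 :=
    ⟨fun e => hzy.1 (S.po.trans _ _ _ e (S.T_two h3 h4)),
      fun e => hzx.2 (S.po.trans _ _ _ (S.T_two h1 h2) e)⟩
  have ha1 : Anti le (insert y2 s) := hs.2.2.insert (fun q hq => (hs.2.1 q hq).2.2)
  have hc1 : (insert y2 s).card = k + 2 := by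
    rw [Finset.card_insert_of_notMem (not_mem_of_inc S.po (fun q hq => (hs.2.1 q hq).2.2)), hs.1]
  have := no_insert S.po S.wP (s := insert y2 s) (fun q hq => by
    rcases Finset.mem_insert.1 hq with rfl | hq
    · exact S.RP h3.1
    · exact S.AP (hs.2.1 q hq).2.1) ha1 hz (fun q hq => by
    rcases Finset.mem_insert.1 hq with rfl | hq
    · exact hzy2.symm
    · exact hzs q hq)
  omega

/-- `z` assigned to `r` through `p` lies below everything six steps above `r` -/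
theorem F8 {z r p s n : ℕ} (hz : P z) (hzR : ¬ R z) (hp : A p)
    (hpz : Inc le p z) (hpr : Inc le p r) (h : Path (T le A R k) R 5 n r s) : le z s := by
  obtain ⟨r1, _, _, t1, r2, _, _, t2, r3, _, _, t3, r4, _, _, t4, r5, _, _, t5, t6⟩ := h
  change T le A R k r5 s at t6
  have hp2 := S.F6 t1 t2 hp hpr
  have hz2 : ¬ le r2 z := fun e => hpz.1 (S.po.trans _ _ _ hp2 e)
  have h24 := S.T_two t3 t4
  have h46 := S.T_two t5 t6
  by_cases h2 : le z r2
  · exact S.po.trans _ _ _ h2 (S.po.trans _ _ _ h24 h46)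
  · by_contra h6
    by_cases h6' : le s z
    · exact hz2 (S.po.trans _ _ _ h24 (S.po.trans _ _ _ h46 h6'))
    · exact S.F7 t3 t4 t5 t6 hz ⟨h2, hz2⟩ ⟨h6, h6'⟩

theorem F8' {z r p s n : ℕ} (hz : P z) (hzR : ¬ R z) (hp : A p)
    (hpz : Inc le p z) (hpr : Inc le p r) (h : Path (T le A R k) R 5 n s r) : le s z := by
  obtain ⟨r5, _, _, t6, r4, _, _, t5, r3, _, _, t4, r2, _, _, t3, r1, _, _, t2, t1⟩ := h
  change T le A R k r1 r at t1
  have hp2 := S.F6' t1 t2 hp hpr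
  have hz2 : ¬ le z r2 := fun e => hpz.2 (S.po.trans _ _ _ e hp2)
  have h24 := S.T_two t4 t3
  have h46 := S.T_two t6 t5
  by_cases h2 : le r2 z
  · exact S.po.trans _ _ _ h46 (S.po.trans _ _ _ h24 h2)
  · by_contra h6
    by_cases h6' : le z s
    · exact hz2 (S.po.trans _ _ _ h6' (S.po.trans _ _ _ h46 h24))
    · exact S.F7 t6 t5 t4 t3 hz ⟨h6', h6⟩ ⟨hz2, h2⟩

/-- elements assigned to representatives with 11 representatives in between are comparable -/
theorem sep {z z' r r' p p' n : ℕ} (hz : P z) (hzR : ¬ R z) (hp : A p)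
    (hpz : Inc le p z) (hpr : Inc le p r) (hz' : P z') (hzR' : ¬ R z') (hp' : A p')
    (hpz' : Inc le p' z') (hpr' : Inc le p' r') (h : Path (T le A R k) R 11 n r r') :
    le z z' := by
  obtain ⟨r1, a1, b1, t1, r2, a2, b2, t2, r3, a3, b3, t3, r4, a4, b4, t4, r5, a5, b5, t5,
    s, a6, b6, t6, h6⟩ := h
  refine S.po.trans _ _ _ (S.F8 (s := s) (n := n) hz hzR hp hpz hpr
    ⟨r1, a1, b1, t1, r2, a2, b2, t2, r3, a3, b3, t3, r4, a4, b4, t4, r5, a5, b5, t5, t6⟩)
    (S.F8' (n := n) hz' hzR' hp' hpz' hpr' h6)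

theorem path_le {r r' n : ℕ} (h : Path (T le A R k) R 11 n r r') : le r r' := by
  obtain ⟨r1, a1, b1, t1, r2, a2, b2, t2, r3, a3, b3, t3, r4, a4, b4, t4, r5, a5, b5, t5,
    r6, a6, b6, t6, r7, a7, b7, t7, r8, a8, b8, t8, r9, a9, b9, t9, r10, a10, b10, t10,
    r11, a11, b11, t11, t12⟩ := h
  change T le A R k r11 r' at t12
  exact S.T_two t1 (S.T_trans t2 (S.T_trans t3 (S.T_trans t4 (S.T_trans t5 (S.T_trans t6
    (S.T_trans t7 (S.T_trans t8 (S.T_trans t9 (S.T_trans t10 (S.T_trans t11 t12))))))))))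

end Stp

end Pool.Agent.RecDim
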