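import Pool.Agent.RecDim.Comp
import Pool.Agent.RecDim.Chain1

/-! A computable chain partition theorem for computable orders of bounded width. -/

set_option autoImplicit false

namespace Pool.Agent.RecDim

namespace Stp

variable {le : ℕ → ℕ → Prop} {P A R : ℕ → Prop} {k : ℕ} (S : Stp le P A R k)

include S

theorem part_width (colA rr pp nc ty : ℕ → ℕ)
    (hcolA : ∀ x y, A x → A y → colA x = colA y → le x y ∨ le y x)
    (hrr : ∀ z, P z → ¬ A z → ¬ R z → R (rr z) ∧ A (pp z) ∧ Inc le (pp z) z ∧
      Inc le (pp z) (rr z))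
    (hnc : ∀ r r', R r → R r' → r ≠ r' → nc r = nc r' →
      ∃ n, Path (T le A R k) R 11 n r r' ∨ Path (T le A R k) R 11 n r' r)
    (hty0 : ∀ z, ty z = 0 → le (rr z) z) (hty1 : ∀ z, ty z = 1 → le z (rr z))
    (hty2 : ∀ z, ty z ≠ 0 → ty z ≠ 1 → Inc le z (rr z))
    {s : Finset ℕ} (hs : ∀ z ∈ s, P z ∧ ¬ A z ∧ ¬ R z) (ha : Anti le s)
    (h1 : ∀ z ∈ s, ∀ z' ∈ s, nc (rr z) = nc (rr z'))
    (h2 : ∀ z ∈ s, ∀ z' ∈ s, colA (pp z) = colA (pp z'))
    (h3 : ∀ z ∈ s, ∀ z' ∈ s, ty z = ty z') : s.card ≤ k + 1 := by
  classical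
  rcases s.eq_empty_or_nonempty with rfl | ⟨z0, hz0⟩
  · simp
  have hr : ∀ z ∈ s, rr z = rr z0 := by
    intro z hz
    by_contra hne
    obtain ⟨p1, p2, p3⟩ := hs z hz
    obtain ⟨q1, q2, q3⟩ := hs z0 hz0
    obtain ⟨a1, a2, a3, a4⟩ := hrr z p1 p2 p3
    obtain ⟨b1, b2, b3, b4⟩ := hrr z0 q1 q2 q3
    have hzz : z ≠ z0 := by
      rintro rfl
      exact hne rfl
    obtain ⟨n, hn⟩ := hnc _ _ a1 b1 hne (h1 z hz z0 hz0)
    rcases hn with hn | hn
    · exact (ha z hz z0 hz0 hzz).1 (S.sep p1 p3 a2 a3 a4 q1 q3 b2 b3 b4 hn)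
    · exact (ha z hz z0 hz0 hzz).2 (S.sep q1 q3 b2 b3 b4 p1 p3 a2 a3 a4 hn)
  have hprop : ∀ z ∈ s, A (pp z) ∧ Inc le (pp z) z ∧ Inc le (pp z) (rr z0) := by
    intro z hz
    obtain ⟨p1, p2, p3⟩ := hs z hz
    obtain ⟨a1, a2, a3, a4⟩ := hrr z p1 p2 p3
    exact ⟨a2, a3, hr z hz ▸ a4⟩
  have hR0 : R (rr z0) := (hrr z0 (hs z0 hz0).1 (hs z0 hz0).2.1 (hs z0 hz0).2.2).1
  by_cases t0 : ty z0 = 0
  · obtain ⟨q, hq, hmax⟩ := exists_min_rel (t := fun x y => le y x)
      (fun a b c hab hbc => S.po.trans _ _ _ hbc hab) (s.image pp) ⟨pp z0, Finset.mem_image_of_mem _ hz0⟩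
      (by
        intro a ha' b hb' _
        obtain ⟨z, hz, rfl⟩ := Finset.mem_image.1 ha'
        obtain ⟨z', hz', rfl⟩ := Finset.mem_image.1 hb'
        exact (hcolA _ _ (hprop z hz).1 (hprop z' hz').1 (h2 z hz z' hz')).symm)
    obtain ⟨z1, hz1, rfl⟩ := Finset.mem_image.1 hq
    have h := no_insert S.po S.wP (fun z hz => (hs z hz).1) ha (S.AP (hprop z1 hz1).1)
      (fun z hz => by
        have e1 : le (rr z0) z := by
          rw [← hr z hz]
          exact hty0 z (by rw [h3 z hz z0 hz0, t0])
        have e2 : le (pp z) (pp z1) := by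
          by_cases e : pp z = pp z1
          · rw [e]; exact S.po.refl _
          · exact hmax _ (Finset.mem_image_of_mem _ hz) e
        exact ⟨fun e => (hprop z1 hz1).2.2.2 (S.po.trans _ _ _ e1 e),
          fun e => (hprop z hz).2.1.1 (S.po.trans _ _ _ e2 e)⟩)
    omega
  · by_cases t1 : ty z0 = 1
    · obtain ⟨q, hq, hmax⟩ := exists_min_rel (t := fun x y => le x y)
        (fun a b c => S.po.trans a b c) (s.image pp) ⟨pp z0, Finset.mem_image_of_mem _ hz0⟩
        (by
          intro a ha' b hb' _
          obtain ⟨z, hz, rfl⟩ := Finset.mem_image.1 ha'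
          obtain ⟨z', hz', rfl⟩ := Finset.mem_image.1 hb'
          exact (hcolA _ _ (hprop z hz).1 (hprop z' hz').1 (h2 z hz z' hz')))
      obtain ⟨z1, hz1, rfl⟩ := Finset.mem_image.1 hq
      have h := no_insert S.po S.wP (fun z hz => (hs z hz).1) ha (S.AP (hprop z1 hz1).1)
        (fun z hz => by
          have e1 : le z (rr z0) := by
            rw [← hr z hz]
            exact hty1 z (by rw [h3 z hz z0 hz0, t1])
          have e2 : le (pp z1) (pp z) := by
            by_cases e : pp z = pp z1
            · rw [e]; exact S.po.refl _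
            · exact hmax _ (Finset.mem_image_of_mem _ hz) e
          exact ⟨fun e => (hprop z hz).2.1.2 (S.po.trans _ _ _ e e2),
            fun e => (hprop z1 hz1).2.2.1 (S.po.trans _ _ _ e e1)⟩)
      omega
    · have h := no_insert S.po S.wP (fun z hz => (hs z hz).1) ha (S.RP hR0)
        (fun z hz => by
          rw [← hr z hz]
          exact hty2 z (by rw [h3 z hz z0 hz0]; exact t0) (by rw [h3 z hz z0 hz0]; exact t1))
      omega

end Stp

/-! ### computability of the on-line construction -/

def Qg {α : Type} (le : ℕ → ℕ → Prop) (M : α → ℕ → Prop) (N : α → ℕ) : ℕ → α → List ℕ → Prop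
  | 0, _, _ => True
  | (j + 1), a, l => ∃ y, y < N a ∧ (M a y ∧ (∀ i, i < l.length → Inc le y (l.getD i 0)) ∧
      Qg le M N j a (y :: l))

theorem inc_comp {α : Type} [Primcodable α] {le : ℕ → ℕ → Prop}
    (hle : ComputablePred (fun p : ℕ × ℕ => le p.1 p.2)) {f g : α → ℕ}
    (hf : Computable f) (hg : Computable g) : ComputablePred (fun a => Inc le (f a) (g a)) :=
  CP.and (CP.not (CP.comp hle (hf.pair hg))) (CP.not (CP.comp hle (hg.pair hf)))

theorem Qg_comp {α : Type} [Primcodable α] {le : ℕ → ℕ → Prop}
    (hle : ComputablePred (fun p : ℕ × ℕ => le p.1 p.2)) {M : α → ℕ → Prop}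
    (hM : ComputablePred (fun q : α × ℕ => M q.1 q.2)) {N : α → ℕ} (hN : Computable N) (j : ℕ) :
    ComputablePred (fun q : α × List ℕ => Qg le M N j q.1 q.2) := by
  induction j with
  | zero => exact CP.const True
  | succ j ih =>
    refine CP.ex_lt (p := fun (q : α × List ℕ) y => M q.1 y ∧
      (∀ i, i < q.2.length → Inc le y (q.2.getD i 0)) ∧ Qg le M N j q.1 (y :: q.2)) ?_
      (hN.comp Computable.fst)
    have e1 : Computable (fun s : (α × List ℕ) × ℕ => s.1.1) := Computable.fst.comp Computable.fst
    have e2 : Computable (fun s : (α × List ℕ) × ℕ => s.1.2) := Computable.snd.comp Computable.fst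
    have e3 : Computable (fun s : (α × List ℕ) × ℕ => s.2) := Computable.snd
    refine CP.and (CP.comp hM (e1.pair e3)) (CP.and ?_ ?_)
    · refine CP.all_lt (p := fun (s : (α × List ℕ) × ℕ) i => Inc le s.2 (s.1.2.getD i 0)) ?_
        (Computable.list_length.comp e2)
      exact inc_comp hle (e3.comp Computable.fst)
        (comp_getD 0 (e2.comp Computable.fst) Computable.snd)
    · exact CP.comp ih (e1.pair (Computable.list_cons.comp e3 e2))

theorem Qg_iff {α : Type} {le : ℕ → ℕ → Prop} (po : PO le) {M : α → ℕ → Prop} {N : α → ℕ}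
    (j : ℕ) : ∀ (a : α) (l : List ℕ), Qg le M N j a l ↔ ∃ s : Finset ℕ, s.card = j ∧
      (∀ y ∈ s, y < N a ∧ M a y) ∧ Anti le s ∧ ∀ y ∈ s, ∀ z ∈ l, Inc le y z := by
  have hmem : ∀ (l : List ℕ) (y : ℕ), (∀ i, i < l.length → Inc le y (l.getD i 0)) ↔
      ∀ z ∈ l, Inc le y z := by
    intro l y
    constructor
    · intro h z hz
      obtain ⟨i, hi, rfl⟩ := List.mem_iff_getElem.1 hz
      have := h i hi
      rwa [List.getD_eq_getElem _ _ hi] at this
    · intro h i hi
      rw [List.getD_eq_getElem _ _ hi]
      exact h _ (List.getElem_mem hi)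
  induction j with
  | zero =>
    intro a l
    refine ⟨fun _ => ⟨∅, rfl, by simp, fun x hx => by simp at hx, by simp⟩, fun _ => trivial⟩
  | succ j ih =>
    intro a l
    show (∃ y, y < N a ∧ (M a y ∧ (∀ i, i < l.length → Inc le y (l.getD i 0)) ∧
      Qg le M N j a (y :: l))) ↔ _
    constructor
    · rintro ⟨y, hy, hM, hl, hQ⟩
      obtain ⟨s, hs, h1, h2, h3⟩ := (ih a (y :: l)).1 hQ
      have hy' : ∀ z ∈ s, Inc le z y := fun z hz => h3 z hz y (by simp)
      refine ⟨insert y s, ?_, ?_, h2.insert hy', ?_⟩
      · rw [Finset.card_insert_of_notMem (not_mem_of_inc po hy'), hs]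
      · intro z hz
        rcases Finset.mem_insert.1 hz with rfl | hz
        · exact ⟨hy, hM⟩
        · exact h1 z hz
      · intro z hz x hx
        rcases Finset.mem_insert.1 hz with rfl | hz
        · exact (hmem l z).1 hl x hx
        · exact h3 z hz x (List.mem_cons_of_mem _ hx)
    · rintro ⟨s, hs, h1, h2, h3⟩
      obtain ⟨y, hy⟩ : s.Nonempty := Finset.card_pos.1 (by omega)
      refine ⟨y, (h1 y hy).1, (h1 y hy).2, (hmem l y).2 (h3 y hy), (ih a (y :: l)).2
        ⟨s.erase y, ?_, ?_, h2.mono (Finset.erase_subset _ _), ?_⟩⟩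
      · rw [Finset.card_erase_of_mem hy, hs]
        rfl
      · exact fun z hz => h1 z (Finset.mem_of_mem_erase hz)
      · intro z hz x hx
        obtain ⟨hz1, hz2⟩ := Finset.mem_erase.1 hz
        rcases List.mem_cons.1 hx with rfl | hx
        · exact h2 z hz2 _ hy hz1
        · exact h3 z hz2 x hx

theorem exA {le : ℕ → ℕ → Prop} (hle : ComputablePred (fun p : ℕ × ℕ => le p.1 p.2))
    (po : PO le) {P : ℕ → Prop} (hP : ComputablePred P) (k : ℕ) :
    ∃ A : ℕ → Prop, ComputablePred A ∧ ∀ x, A x ↔ P x ∧ ¬ ∃ s, W le A k x s := by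
  let M : List Bool → ℕ → Prop := fun h y => h.getD y false = true
  obtain ⟨A, hA, f, hf, hAΦ⟩ := strongRecPred
    (fun h => P h.length ∧ ¬ Qg le M List.length (k + 1) h [h.length]) (by
      refine CP.and (CP.comp hP Computable.list_length) (CP.not (CP.comp (Qg_comp hle ?_
        Computable.list_length (k + 1)) (Computable.id.pair ?_)))
      · exact CP.eq (comp_getD false Computable.fst Computable.snd) (Computable.const true)
      · exact Computable.list_cons.comp Computable.list_length (Computable.const []))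
  refine ⟨A, hA, fun x => ?_⟩
  rw [hAΦ x, List.length_map, List.length_range]
  refine and_congr_right (fun _ => not_congr ?_)
  rw [Qg_iff po]
  constructor
  · rintro ⟨s, h1, h2, h3, h4⟩
    refine ⟨s, h1, fun y hy => ?_, h3⟩
    obtain ⟨h5, h6⟩ := h2 y hy
    rw [List.length_map, List.length_range] at h5
    refine ⟨h5, ?_, h4 y hy x (by simp)⟩
    rw [hf y, ← h6]
    exact (getD_hist f false x y h5).symm
  · rintro ⟨s, h1, h2, h3⟩
    refine ⟨s, h1, fun y hy => ?_, h3, fun y hy z hz => ?_⟩
    · rw [List.length_map, List.length_range]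
      obtain ⟨h5, h6, h7⟩ := h2 y hy
      refine ⟨h5, ?_⟩
      show ((List.range x).map f).getD y false = true
      rw [getD_hist f false x y h5]
      exact (hf y).1 h6
    · rw [List.mem_singleton.1 hz]
      exact (h2 y hy).2.2

theorem exR {le : ℕ → ℕ → Prop} (hle : ComputablePred (fun p : ℕ × ℕ => le p.1 p.2))
    {P A : ℕ → Prop} (hP : ComputablePred P) (hA : ComputablePred A) :
    ∃ R : ℕ → Prop, ComputablePred R ∧ ∀ n, R n ↔ P n ∧ ¬ A n ∧ ∀ r, r < n → R r →
      ∀ p, p < n → A p → Inc le p n → Inc le p r → False := by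
  obtain ⟨R, hR, f, hf, hRΦ⟩ := strongRecPred
    (fun h => P h.length ∧ ¬ A h.length ∧ ∀ r, r < h.length → (h.getD r false = true →
      ∀ p, p < h.length → (A p → Inc le p h.length → Inc le p r → False))) (by
      refine CP.and (CP.comp hP Computable.list_length) (CP.and
        (CP.not (CP.comp hA Computable.list_length)) ?_)
      refine CP.all_lt (p := fun (h : List Bool) r => (h.getD r false = true →
        ∀ p, p < h.length → (A p → Inc le p h.length → Inc le p r → False))) ?_
        Computable.list_length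
      refine CP.imp (CP.eq (comp_getD false Computable.fst Computable.snd)
        (Computable.const true)) ?_
      refine CP.all_lt (p := fun (q : List Bool × ℕ) p =>
        (A p → Inc le p q.1.length → Inc le p q.2 → False)) ?_
        (Computable.list_length.comp Computable.fst)
      refine CP.imp (CP.comp hA Computable.snd) (CP.imp (inc_comp hle Computable.snd
        (Computable.list_length.comp (Computable.fst.comp Computable.fst)))
        (CP.imp (inc_comp hle Computable.snd (Computable.snd.comp Computable.fst))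
          (CP.const False))))
  refine ⟨R, hR, fun n => ?_⟩
  rw [hRΦ n, List.length_map, List.length_range]
  refine and_congr_right (fun _ => and_congr_right (fun _ => ?_))
  refine forall_congr' (fun r => forall_congr' (fun hr => ?_))
  rw [getD_hist f false n r hr, ← hf r]

theorem T_comp {le : ℕ → ℕ → Prop} (hle : ComputablePred (fun p : ℕ × ℕ => le p.1 p.2))
    (po : PO le) {A R : ℕ → Prop} (hA : ComputablePred A) (hR : ComputablePred R) (k : ℕ) :
    ComputablePred (fun q : ℕ × ℕ => T le A R k q.1 q.2) := by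
  have h : ComputablePred (fun q : ℕ × ℕ => R q.1 ∧ R q.2 ∧ ¬ q.1 = q.2 ∧
      ∃ p, p < q.1 ∧ (A p ∧ Inc le p q.1 ∧ le p q.2 ∧
        Qg le (fun (_ : ℕ) y => A y) (fun n => n) k q.1 [p, q.1])) := by
    refine CP.and (CP.comp hR Computable.fst) (CP.and (CP.comp hR Computable.snd)
      (CP.and (CP.not (CP.eq Computable.fst Computable.snd)) ?_))
    refine CP.ex_lt (p := fun (q : ℕ × ℕ) p => (A p ∧ Inc le p q.1 ∧ le p q.2 ∧
        Qg le (fun (_ : ℕ) y => A y) (fun n => n) k q.1 [p, q.1])) ?_ Computable.fst
    have e1 : Computable (fun s : (ℕ × ℕ) × ℕ => s.1.1) := Computable.fst.comp Computable.fst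
    have e2 : Computable (fun s : (ℕ × ℕ) × ℕ => s.1.2) := Computable.snd.comp Computable.fst
    have e3 : Computable (fun s : (ℕ × ℕ) × ℕ => s.2) := Computable.snd
    refine CP.and (CP.comp hA e3) (CP.and (inc_comp hle e3 e1)
      (CP.and (CP.comp hle (e3.pair e2)) ?_))
    refine CP.comp (Qg_comp hle (M := fun (_ : ℕ) y => A y) (CP.comp hA Computable.snd)
      (N := fun n => n) Computable.id k) (e1.pair ?_)
    exact Computable.list_cons.comp e3 (Computable.list_cons.comp e1 (Computable.const []))
  refine h.of_eq (fun q => ?_)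
  refine and_congr_right (fun _ => and_congr_right (fun _ => and_congr_right (fun _ => ?_)))
  constructor
  · rintro ⟨p, hp, h1, h2, h3, h4⟩
    obtain ⟨s, hs, g1, g2, g3⟩ := (Qg_iff po k q.1 [p, q.1]).1 h4
    have hps : ∀ y ∈ s, Inc le y p := fun y hy => g3 y hy p (by simp)
    refine ⟨insert p s, ⟨?_, ?_, g2.insert hps⟩, p, Finset.mem_insert_self _ _, h3⟩
    · rw [Finset.card_insert_of_notMem (not_mem_of_inc po hps), hs]
    · intro y hy
      rcases Finset.mem_insert.1 hy with rfl | hy
      · exact ⟨hp, h1, h2⟩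
      · exact ⟨(g1 y hy).1, (g1 y hy).2, g3 y hy q.1 (by simp)⟩
  · rintro ⟨s, ⟨hs, h1, h2⟩, p, hp, hpq⟩
    refine ⟨p, (h1 p hp).1, (h1 p hp).2.1, (h1 p hp).2.2, hpq, (Qg_iff po k q.1 [p, q.1]).2
      ⟨s.erase p, ?_, ?_, h2.mono (Finset.erase_subset _ _), ?_⟩⟩
    · rw [Finset.card_erase_of_mem hp, hs]
      rfl
    · intro y hy
      have := h1 y (Finset.mem_of_mem_erase hy)
      exact ⟨this.1, this.2.1⟩
    · intro y hy z hz
      obtain ⟨hy1, hy2⟩ := Finset.mem_erase.1 hy
      rcases List.mem_cons.1 hz with rfl | hz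
      · exact h2 y hy2 _ hp hy1
      · rw [List.mem_singleton.1 hz]
        exact (h1 y hy2).2.2

theorem Path_comp {t : ℕ → ℕ → Prop} (ht : ComputablePred (fun q : ℕ × ℕ => t q.1 q.2))
    {R : ℕ → Prop} (hR : ComputablePred R) (j : ℕ) :
    ComputablePred (fun q : ℕ × ℕ × ℕ => Path t R j q.1 q.2.1 q.2.2) := by
  induction j with
  | zero => exact CP.comp ht Computable.snd
  | succ j ih =>
    refine CP.ex_lt (p := fun (q : ℕ × ℕ × ℕ) u => R u ∧ t q.2.1 u ∧ Path t R j q.1 u q.2.2) ?_
      Computable.fst
    have e1 : Computable (fun s : (ℕ × ℕ × ℕ) × ℕ => s.1.1) := Computable.fst.comp Computable.fst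
    have e2 : Computable (fun s : (ℕ × ℕ × ℕ) × ℕ => s.1.2.1) :=
      Computable.fst.comp (Computable.snd.comp Computable.fst)
    have e3 : Computable (fun s : (ℕ × ℕ × ℕ) × ℕ => s.1.2.2) :=
      Computable.snd.comp (Computable.snd.comp Computable.fst)
    have e4 : Computable (fun s : (ℕ × ℕ × ℕ) × ℕ => s.2) := Computable.snd
    exact CP.and (CP.comp hR e4) (CP.and (CP.comp ht (e2.pair e4))
      (CP.comp ih (e1.pair (e4.pair e3))))

theorem exNc {le : ℕ → ℕ → Prop} (hle : ComputablePred (fun p : ℕ × ℕ => le p.1 p.2))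
    {P A R : ℕ → Prop} {k : ℕ} (S : Stp le P A R k) (hA : ComputablePred A)
    (hR : ComputablePred R) :
    ∃ nc : ℕ → ℕ, Computable nc ∧ (∀ r, R r → nc r < 23) ∧
      ∀ r r', R r → R r' → r ≠ r' → nc r = nc r' →
      ∃ n, Path (T le A R k) R 11 n r r' ∨ Path (T le A R k) R 11 n r' r := by
  have hT := T_comp hle S.po hA hR k
  have hPa := Path_comp hT hR 11
  obtain ⟨g, hg, hg2⟩ := search (α := List ℕ) (p := fun h c => ∀ r, r < h.length →
      ((R r ∧ h.getD r 0 = c) → Path (T le A R k) R 11 h.length h.length r ∨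
        Path (T le A R k) R 11 h.length r h.length)) (f := fun _ => 23) (by
    refine CP.all_lt (p := fun (q : List ℕ × ℕ) r =>
      ((R r ∧ q.1.getD r 0 = q.2) → Path (T le A R k) R 11 q.1.length q.1.length r ∨
        Path (T le A R k) R 11 q.1.length r q.1.length)) ?_
      (Computable.list_length.comp Computable.fst)
    have e1 : Computable (fun s : (List ℕ × ℕ) × ℕ => s.1.1) := Computable.fst.comp Computable.fst
    have e2 : Computable (fun s : (List ℕ × ℕ) × ℕ => s.1.2) := Computable.snd.comp Computable.fst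
    have e3 : Computable (fun s : (List ℕ × ℕ) × ℕ => s.2) := Computable.snd
    have e4 : Computable (fun s : (List ℕ × ℕ) × ℕ => s.1.1.length) :=
      Computable.list_length.comp e1
    exact CP.imp (CP.and (CP.comp hR e3) (CP.eq (comp_getD 0 e1 e3) e2))
      (CP.or (CP.comp hPa (e4.pair (e4.pair e3))) (CP.comp hPa (e4.pair (e3.pair e4)))))
    (Computable.const 23)
  obtain ⟨nc, hnc, hnc2⟩ := strongRec g hg
  have key : ∀ n, R n → nc n < 23 ∧ ∀ r, r < n → R r → nc r = nc n →
      Path (T le A R k) R 11 n n r ∨ Path (T le A R k) R 11 n r n := by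
    intro n hn
    have h1 := hg2 ((List.range n).map nc) (by
      obtain ⟨c, hc, h⟩ := S.greedy hn nc
      refine ⟨c, hc, ?_⟩
      rw [List.length_map, List.length_range]
      intro r hr
      rw [getD_hist nc 0 n r hr]
      exact h r hr)
    rw [← hnc2 n, List.length_map, List.length_range] at h1
    refine ⟨h1.1, fun r hr hRr hcr => h1.2.1 r hr ⟨hRr, ?_⟩⟩
    rw [getD_hist nc 0 n r hr]
    exact hcr
  refine ⟨nc, hnc, fun r hr => (key r hr).1, fun r r' hr hr' hne hc => ?_⟩
  rcases lt_or_gt_of_ne hne with h | h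
  · exact ⟨r', ((key r' hr').2 r h hr hc).symm⟩
  · exact ⟨r, (key r hr).2 r' h hr' hc.symm⟩

theorem enc_lt {x y a b : ℕ} (hx : x < a) (hy : y < b) : x * b + y < a * b := by
  calc x * b + y < x * b + b := by omega
    _ = (x + 1) * b := by ring
    _ ≤ a * b := Nat.mul_le_mul_right _ hx

theorem enc_inj {x y x' y' b : ℕ} (hy : y < b) (hy' : y' < b) (h : x * b + y = x' * b + y') :
    x = x' ∧ y = y' := by
  have hb : 0 < b := by omega
  have h1 : (x * b + y) / b = x := by
    rw [Nat.add_comm, Nat.add_mul_div_right _ _ hb, Nat.div_eq_of_lt hy]; omega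
  have h2 : (x' * b + y') / b = x' := by
    rw [Nat.add_comm, Nat.add_mul_div_right _ _ hb, Nat.div_eq_of_lt hy']; omega
  have h3 : x = x' := by rw [← h1, ← h2, h]
  subst h3
  exact ⟨rfl, by omega⟩

/-- **Computable chain partition**: there is a bound `c`, depending only on `w`, such that every
computable order of width at most `w` has a computable partition into `c` chains. -/
theorem chainPart : ∀ w : ℕ, ∃ c : ℕ, ∀ le : ℕ → ℕ → Prop,
    ComputablePred (fun p : ℕ × ℕ => le p.1 p.2) → PO le → ∀ P : ℕ → Prop, ComputablePred P →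
    Width le P w → ∃ col : ℕ → ℕ, Computable col ∧ (∀ x, P x → col x < c) ∧
      ∀ x y, P x → P y → col x = col y → le x y ∨ le y x := by
  classical
  intro w
  induction w with
  | zero =>
    refine ⟨1, fun le _ _ P _ hw => ⟨fun _ => 0, Computable.const 0, fun _ _ => Nat.one_pos,
      fun x y hx _ _ => ?_⟩⟩
    have := hw {x} (by simpa using hx) (fun a ha b hb hab => by
      simp at ha hb; exact absurd (ha.trans hb.symm) hab)
    simp at this
  | succ w ih =>
    rcases w with _ | k
    · refine ⟨1, fun le _ po P _ hw => ⟨fun _ => 0, Computable.const 0, fun _ _ => Nat.one_pos,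
        fun x y hx hy _ => ?_⟩⟩
      by_contra h
      push Not at h
      have hxy : x ≠ y := fun e => h.1 (e ▸ po.refl _)
      have := hw {x, y} (by simp [hx, hy]) (fun a ha b hb hab => by
        simp at ha hb
        rcases ha with rfl | rfl <;> rcases hb with rfl | rfl
        · exact absurd rfl hab
        · exact h
        · exact ⟨h.2, h.1⟩
        · exact absurd rfl hab)
      rw [Finset.card_pair hxy] at this
      omega
    · obtain ⟨m, IH⟩ := ih
      refine ⟨m + 23 + (23 * m * 3) * m, fun le hle po P hP hw => ?_⟩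
      obtain ⟨A, hA, hA2⟩ := exA hle po hP k
      obtain ⟨R, hR, hR2⟩ := exR hle hP hA
      have S : Stp le P A R k := ⟨po, hw, hA2, hR2⟩
      obtain ⟨colA, hcA, hcA1, hcA2⟩ := IH le hle po A hA S.wA
      obtain ⟨nc, hnc, hnc1, hnc2⟩ := exNc hle S hA hR
      obtain ⟨rr, hrr, hrr2⟩ := search (α := ℕ) (p := fun z r => R r ∧ ∃ p, p < z ∧
        (A p ∧ Inc le p z ∧ Inc le p r)) (f := fun z => z) (by
        refine CP.and (CP.comp hR Computable.snd) ?_
        refine CP.ex_lt (p := fun (q : ℕ × ℕ) p => A p ∧ Inc le p q.1 ∧ Inc le p q.2) ?_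
          Computable.fst
        exact CP.and (CP.comp hA Computable.snd) (CP.and
          (inc_comp hle Computable.snd (Computable.fst.comp Computable.fst))
          (inc_comp hle Computable.snd (Computable.snd.comp Computable.fst)))) Computable.id
      obtain ⟨pp, hpp, hpp2⟩ := search (α := ℕ) (p := fun z p => A p ∧ Inc le p z ∧
        Inc le p (rr z)) (f := fun z => z) (by
        exact CP.and (CP.comp hA Computable.snd) (CP.and
          (inc_comp hle Computable.snd Computable.fst)
          (inc_comp hle Computable.snd (hrr.comp Computable.fst)))) Computable.id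
      have hass : ∀ z, P z → ¬ A z → ¬ R z → R (rr z) ∧ A (pp z) ∧ Inc le (pp z) z ∧
          Inc le (pp z) (rr z) := by
        intro z h1 h2 h3
        have h4 : ∃ r, r < z ∧ R r ∧ ∃ p, p < z ∧ (A p ∧ Inc le p z ∧ Inc le p r) := by
          by_contra h4
          refine h3 ((S.hR z).2 ⟨h1, h2, fun r hr hRr p hp hAp i1 i2 => h4
            ⟨r, hr, hRr, p, hp, hAp, i1, i2⟩⟩)
        have h5 := hrr2 z h4
        have h6 := hpp2 z h5.2.1.2
        exact ⟨h5.2.1.1, h6.2.1⟩
      -- the type
      let ty : ℕ → ℕ := fun z => if le (rr z) z then 0 else if le z (rr z) then 1 else 2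
      have hty : Computable ty := by
        refine ComputablePred.ite (Computable.const 0) ?_ (CP.comp hle (hrr.pair Computable.id))
        exact ComputablePred.ite (Computable.const 1) (Computable.const 2)
          (CP.comp hle (Computable.id.pair hrr))
      have hty3 : ∀ z, ty z < 3 := by
        intro z
        show (if le (rr z) z then 0 else if le z (rr z) then 1 else 2) < 3
        split_ifs <;> omega
      have hty0 : ∀ z, ty z = 0 → le (rr z) z := by
        intro z h
        by_contra h1
        have : ty z = if le z (rr z) then 1 else 2 := if_neg h1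
        rw [this] at h
        split_ifs at h
      have hty1 : ∀ z, ty z = 1 → le z (rr z) := by
        intro z h
        by_contra h1
        have : ty z = if le (rr z) z then 0 else 2 := by
          show (if le (rr z) z then 0 else if le z (rr z) then 1 else 2) = _
          rw [if_neg h1]
        rw [this] at h
        split_ifs at h <;> omega
      have hty2 : ∀ z, ty z ≠ 0 → ty z ≠ 1 → Inc le z (rr z) := by
        intro z h0 h1
        constructor
        · intro h
          by_cases h2 : le (rr z) z
          · exact h0 (if_pos h2)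
          · exact h1 (by
              show (if le (rr z) z then 0 else if le z (rr z) then 1 else 2) = 1
              rw [if_neg h2, if_pos h])
        · intro h
          exact h0 (if_pos h)
      let key : ℕ → ℕ := fun z => (nc (rr z) * m + colA (pp z)) * 3 + ty z
      have hkey : Computable key := by
        have c1 : Computable (fun z => nc (rr z) * m) :=
          Primrec.nat_mul.to_comp.comp (hnc.comp hrr) (Computable.const m)
        have c2 : Computable (fun z => nc (rr z) * m + colA (pp z)) :=
          Primrec.nat_add.to_comp.comp c1 (hcA.comp hpp)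
        have c3 : Computable (fun z => (nc (rr z) * m + colA (pp z)) * 3) :=
          Primrec.nat_mul.to_comp.comp c2 (Computable.const 3)
        exact Primrec.nat_add.to_comp.comp c3 hty
      let Q : ℕ → Prop := fun z => P z ∧ ¬ A z ∧ ¬ R z
      have hQ : ComputablePred Q := CP.and hP (CP.and (CP.not hA) (CP.not hR))
      have hkeyQ : ∀ z, Q z → key z < 23 * m * 3 := by
        intro z hz
        obtain ⟨h1, h2, _, _⟩ := hass z hz.1 hz.2.1 hz.2.2
        exact enc_lt (enc_lt (hnc1 _ h1) (hcA1 _ h2)) (hty3 z)
      have hkeyinj : ∀ z z', Q z → Q z' → key z = key z' →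
          nc (rr z) = nc (rr z') ∧ colA (pp z) = colA (pp z') ∧ ty z = ty z' := by
        intro z z' hz hz' h
        obtain ⟨_, h2, _, _⟩ := hass z hz.1 hz.2.1 hz.2.2
        obtain ⟨_, h2', _, _⟩ := hass z' hz'.1 hz'.2.1 hz'.2.2
        obtain ⟨e1, e2⟩ := enc_inj (hty3 z) (hty3 z') h
        obtain ⟨e3, e4⟩ := enc_inj (hcA1 _ h2) (hcA1 _ h2') e1
        exact ⟨e3, e4, e2⟩
      let le' : ℕ → ℕ → Prop := fun x y => key x < key y ∨ (key x = key y ∧ le x y)
      have hle' : ComputablePred (fun p : ℕ × ℕ => le' p.1 p.2) :=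
        CP.or (CP.lt (hkey.comp Computable.fst) (hkey.comp Computable.snd))
          (CP.and (CP.eq (hkey.comp Computable.fst) (hkey.comp Computable.snd)) hle)
      have po' : PO le' := by
        refine ⟨fun x => Or.inr ⟨rfl, po.refl x⟩, ?_, ?_⟩
        · rintro x y (h | ⟨h, h'⟩) (g | ⟨g, g'⟩)
          · omega
          · omega
          · omega
          · exact po.anti _ _ h' g'
        · rintro x y z (h | ⟨h, h'⟩) (g | ⟨g, g'⟩)
          · exact Or.inl (by omega)
          · exact Or.inl (by omega)
          · exact Or.inl (by omega)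
          · exact Or.inr ⟨by omega, po.trans _ _ _ h' g'⟩
      have hw' : Width le' Q (k + 1) := by
        intro s hs ha
        have hk : ∀ z ∈ s, ∀ z' ∈ s, key z = key z' := by
          intro z hz z' hz'
          by_contra hne
          have hzz : z ≠ z' := fun e => hne (e ▸ rfl)
          have h := ha z hz z' hz' hzz
          rcases lt_or_gt_of_ne hne with h1 | h1
          · exact h.1 (Or.inl h1)
          · exact h.2 (Or.inl h1)
        have ha' : Anti le s := by
          intro z hz z' hz' hzz
          have h := ha z hz z' hz' hzz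
          exact ⟨fun e => h.1 (Or.inr ⟨hk z hz z' hz', e⟩),
            fun e => h.2 (Or.inr ⟨(hk z hz z' hz').symm, e⟩)⟩
        exact S.part_width colA rr pp nc ty hcA2 hass hnc2 hty0 hty1 hty2 hs ha'
          (fun z hz z' hz' => (hkeyinj z z' (hs z hz) (hs z' hz') (hk z hz z' hz')).1)
          (fun z hz z' hz' => (hkeyinj z z' (hs z hz) (hs z' hz') (hk z hz z' hz')).2.1)
          (fun z hz z' hz' => (hkeyinj z z' (hs z hz) (hs z' hz') (hk z hz z' hz')).2.2)
      obtain ⟨colQ, hcQ, hcQ1, hcQ2⟩ := IH le' hle' po' Q hQ hw'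
      let col : ℕ → ℕ := fun x => if A x then colA x else if R x then m + nc x else
        (m + 23) + (key x * m + colQ x)
      have hcol : Computable col := by
        refine ComputablePred.ite hcA ?_ hA
        refine ComputablePred.ite ?_ ?_ hR
        · exact Primrec.nat_add.to_comp.comp (Computable.const m) hnc
        · have c1 : Computable (fun z => key z * m) :=
            Primrec.nat_mul.to_comp.comp hkey (Computable.const m)
          have c2 : Computable (fun z => key z * m + colQ z) :=
            Primrec.nat_add.to_comp.comp c1 hcQ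
          exact Primrec.nat_add.to_comp.comp (Computable.const (m + 23)) c2
      have colAx : ∀ x, A x → col x = colA x := fun x h => if_pos h
      have colRx : ∀ x, R x → col x = m + nc x := fun x h => by
        show (if A x then colA x else if R x then m + nc x else _) = _
        rw [if_neg (S.RA h), if_pos h]
      have colQx : ∀ x, Q x → col x = (m + 23) + (key x * m + colQ x) := fun x h => by
        show (if A x then colA x else if R x then m + nc x else _) = _
        rw [if_neg h.2.1, if_neg h.2.2]
      have hcases : ∀ x, P x → A x ∨ R x ∨ Q x := by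
        intro x hx
        by_cases h1 : A x
        · exact Or.inl h1
        · by_cases h2 : R x
          · exact Or.inr (Or.inl h2)
          · exact Or.inr (Or.inr ⟨hx, h1, h2⟩)
      refine ⟨col, hcol, ?_, ?_⟩
      · intro x hx
        rcases hcases x hx with h | h | h
        · rw [colAx x h]
          have := hcA1 x h
          omega
        · rw [colRx x h]
          have := hnc1 x h
          omega
        · rw [colQx x h]
          have := enc_lt (hkeyQ x h) (hcQ1 x h)
          omega
      · intro x y hx hy hxy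
        rcases hcases x hx with h | h | h <;> rcases hcases y hy with g | g | g
        · rw [colAx x h, colAx y g] at hxy
          exact hcA2 x y h g hxy
        · rw [colAx x h, colRx y g] at hxy
          have := hcA1 x h
          omega
        · rw [colAx x h, colQx y g] at hxy
          have := hcA1 x h
          omega
        · rw [colRx x h, colAx y g] at hxy
          have := hcA1 y g
          omega
        · rw [colRx x h, colRx y g] at hxy
          by_cases e : x = y
          · exact Or.inl (e ▸ po.refl _)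
          · obtain ⟨n, hn⟩ := hnc2 x y h g e (by omega)
            exact hn.imp S.path_le S.path_le
        · rw [colRx x h, colQx y g] at hxy
          have := hnc1 x h
          omega
        · rw [colQx x h, colAx y g] at hxy
          have := hcA1 y g
          omega
        · rw [colQx x h, colRx y g] at hxy
          have := hnc1 y g
          omega
        · rw [colQx x h, colQx y g] at hxy
          obtain ⟨e1, e2⟩ := enc_inj (hcQ1 x h) (hcQ1 y g) (by omega : key x * m + colQ x =
            key y * m + colQ y)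
          rcases hcQ2 x y h g e2 with h1 | h1
          · rcases h1 with h1 | ⟨_, h1⟩
            · omega
            · exact Or.inl h1
          · rcases h1 with h1 | ⟨_, h1⟩
            · omega
            · exact Or.inr h1

end Pool.Agent.RecDim
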