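import Mathlib

/-! Closure properties of computable predicates: boolean operations, bounded quantifiers,
bounded search, course-of-values recursion. -/

set_option autoImplicit false

namespace Pool.Agent.RecDim

open Computable

variable {α β σ : Type*} [Primcodable α] [Primcodable β] [Primcodable σ]

theorem CP.comp {p : β → Prop} (hp : ComputablePred p) {f : α → β} (hf : Computable f) :
    ComputablePred (fun a => p (f a)) := by
  obtain ⟨d, hd⟩ := hp
  exact ⟨fun a => d (f a), hd.comp hf⟩

theorem CP.and {p q : α → Prop} (hp : ComputablePred p) (hq : ComputablePred q) :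
    ComputablePred (fun a => p a ∧ q a) := by
  obtain ⟨dp, hp⟩ := hp
  obtain ⟨dq, hq⟩ := hq
  refine ⟨fun a => inferInstance, ?_⟩
  exact (Primrec.and.to_comp.comp hp hq).of_eq (fun a => by simp)

theorem CP.or {p q : α → Prop} (hp : ComputablePred p) (hq : ComputablePred q) :
    ComputablePred (fun a => p a ∨ q a) := by
  obtain ⟨dp, hp⟩ := hp
  obtain ⟨dq, hq⟩ := hq
  refine ⟨fun a => inferInstance, ?_⟩
  exact (Primrec.or.to_comp.comp hp hq).of_eq (fun a => by simp)

theorem CP.not {p : α → Prop} (hp : ComputablePred p) :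
    ComputablePred (fun a => ¬ p a) := ComputablePred.not hp

theorem CP.imp {p q : α → Prop} (hp : ComputablePred p) (hq : ComputablePred q) :
    ComputablePred (fun a => p a → q a) :=
  (CP.or (CP.not hp) hq).of_eq (fun a => by tauto)

theorem CP.const (p : Prop) : ComputablePred (fun _ : α => p) := by
  classical
  exact ⟨fun _ => inferInstance, Computable.const _⟩

theorem CP.eq [DecidableEq σ] {f g : α → σ} (hf : Computable f) (hg : Computable g) :
    ComputablePred (fun a => f a = g a) := by
  have h : ComputablePred (fun p : σ × σ => p.1 = p.2) := (Primrec.eq (α := σ)).computablePred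
  exact CP.comp h (hf.pair hg)

theorem CP.lt {f g : α → ℕ} (hf : Computable f) (hg : Computable g) :
    ComputablePred (fun a => f a < g a) := by
  have h : ComputablePred (fun p : ℕ × ℕ => p.1 < p.2) := Primrec.nat_lt.computablePred
  exact CP.comp h (hf.pair hg)

theorem CP.le {f g : α → ℕ} (hf : Computable f) (hg : Computable g) :
    ComputablePred (fun a => f a ≤ g a) := by
  have h : ComputablePred (fun p : ℕ × ℕ => p.1 ≤ p.2) := Primrec.nat_le.computablePred
  exact CP.comp h (hf.pair hg)

theorem CP.ex_lt {p : α → ℕ → Prop} (hp : ComputablePred (fun q : α × ℕ => p q.1 q.2))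
    {f : α → ℕ} (hf : Computable f) : ComputablePred (fun a => ∃ y, y < f a ∧ p a y) := by
  obtain ⟨d, hd, hpd⟩ := ComputablePred.computable_iff.1 hp
  have hpd' : ∀ a y, p a y ↔ d (a, y) = true := fun a y => by
    have := congrFun hpd (a, y)
    simp only at this
    rw [this]
  have h1 : Computable (fun a => Nat.rec (motive := fun _ => Bool) false
      (fun y ih => ih || d (a, y)) (f a)) := by
    apply Computable.nat_rec (f := f) (g := fun _ => false)
      (h := fun a (q : ℕ × Bool) => q.2 || d (a, q.1)) hf (Computable.const _)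
    apply Computable₂.comp (f := fun a b : Bool => a || b) Primrec.or.to_comp
    · exact Computable.snd.comp Computable.snd
    · exact hd.comp (Computable.fst.pair (Computable.fst.comp Computable.snd))
  have key : ∀ a n, (Nat.rec (motive := fun _ => Bool) false
      (fun y ih => ih || d (a, y)) n = true) ↔ ∃ y, y < n ∧ p a y := by
    intro a n
    induction n with
    | zero => simp
    | succ n ih =>
      show (((Nat.rec (motive := fun _ => Bool) false
        (fun y ih => ih || d (a, y)) n : Bool) || d (a, n)) = true) ↔ _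
      rw [Bool.or_eq_true, ih, ← hpd']
      constructor
      · rintro (⟨y, hy, h⟩ | h)
        · exact ⟨y, by omega, h⟩
        · exact ⟨n, by omega, h⟩
      · rintro ⟨y, hy, h⟩
        rcases Nat.lt_succ_iff_lt_or_eq.1 hy with h5 | h5
        · exact Or.inl ⟨y, h5, h⟩
        · subst h5; exact Or.inr h
  refine ComputablePred.computable_iff.2 ⟨_, h1, funext fun a => propext ?_⟩
  rw [← key a (f a)]

theorem CP.all_lt {p : α → ℕ → Prop} (hp : ComputablePred (fun q : α × ℕ => p q.1 q.2))
    {f : α → ℕ} (hf : Computable f) : ComputablePred (fun a => ∀ y, y < f a → p a y) :=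
  (CP.not (CP.ex_lt (p := fun a y => ¬ p a y) (CP.not hp) hf)).of_eq (fun a => by
    push Not
    rfl)

/-- bounded search -/
theorem search {p : α → ℕ → Prop} (hp : ComputablePred (fun q : α × ℕ => p q.1 q.2))
    {f : α → ℕ} (hf : Computable f) :
    ∃ g : α → ℕ, Computable g ∧ ∀ a, (∃ y, y < f a ∧ p a y) → (g a < f a ∧ p a (g a) ∧
      ∀ y, y < g a → ¬ p a y) := by
  classical
  have h1 : ComputablePred (fun q : α × ℕ => p q.1 q.2 ∨ f q.1 ≤ q.2) :=
    CP.or hp (CP.le (hf.comp Computable.fst) Computable.snd)
  have hex : ∀ a, ∃ n, p a n ∨ f a ≤ n := fun a => ⟨f a, Or.inr le_rfl⟩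
  refine ⟨fun a => Nat.find (hex a), Computable.find (P := fun a n => p a n ∨ f a ≤ n) h1 hex, ?_⟩
  rintro a ⟨y, hy, hpy⟩
  have h2 : Nat.find (hex a) ≤ y := Nat.find_min' _ (Or.inl hpy)
  have h3 := Nat.find_spec (hex a)
  refine ⟨lt_of_le_of_lt h2 hy, ?_, ?_⟩
  · rcases h3 with h | h
    · exact h
    · omega
  · intro z hz h4
    exact absurd (Or.inl h4) (Nat.find_min (hex a) hz)

theorem strongRec (G : List σ → σ) (hG : Computable G) :
    ∃ f : ℕ → σ, Computable f ∧ ∀ n, f n = G ((List.range n).map f) := by
  let hist : ℕ → List σ := fun n => Nat.rec (motive := fun _ => List σ) []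
    (fun _ l => l ++ [G l]) n
  have h0 : ∀ n, hist n = (List.range n).map (fun i => G (hist i)) := by
    intro n
    induction n with
    | zero => rfl
    | succ n ih =>
      rw [List.range_succ, List.map_append, ← ih]
      rfl
  refine ⟨fun n => G (hist n), ?_, fun n => by rw [← h0 n]⟩
  apply hG.comp
  apply Computable.nat_rec (f := fun n : ℕ => n) (g := fun _ => ([] : List σ))
    (h := fun _ (q : ℕ × List σ) => q.2 ++ [G q.2]) Computable.id (Computable.const _)
  exact Computable.list_concat.comp (Computable.snd.comp Computable.snd)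
    (hG.comp (Computable.snd.comp Computable.snd))

/-- course-of-values recursion for predicates -/
theorem strongRecPred (Φ : List Bool → Prop) (hΦ : ComputablePred Φ) :
    ∃ A : ℕ → Prop, ComputablePred A ∧ ∃ f : ℕ → Bool, (∀ n, A n ↔ f n = true) ∧
      ∀ n, A n ↔ Φ ((List.range n).map f) := by
  classical
  obtain ⟨f, hf, hf2⟩ := strongRec (fun l => decide (Φ l)) hΦ.decide
  refine ⟨fun n => f n = true, ComputablePred.computable_iff.2 ⟨f, hf, rfl⟩, f, fun n => Iff.rfl,
    fun n => ?_⟩
  beta_reduce
  rw [hf2 n]
  simp

omit [Primcodable σ] in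
theorem getD_hist (f : ℕ → σ) (d : σ) (n i : ℕ) (hi : i < n) :
    ((List.range n).map f).getD i d = f i := by
  rw [List.getD_eq_getElem?_getD, List.getElem?_map, List.getElem?_range hi]
  rfl

theorem comp_getD (d : σ) {f : α → List σ} (hf : Computable f) {g : α → ℕ} (hg : Computable g) :
    Computable (fun a => (f a).getD (g a) d) := by
  have h : Computable (fun a => ((f a)[g a]?).getD d) :=
    Computable.option_getD (Computable.list_getElem?.comp hf hg) (Computable.const _)
  exact h.of_eq (fun a => by rw [List.getD_eq_getElem?_getD])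

end Pool.Agent.RecDim
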