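import Pool.Agent.RecDim.Comp

/-! On-line linear extensions attached to a colouring and a rank function on the colours. -/

set_option autoImplicit false

namespace Pool.Agent.RecDim

/-- stage-`v` compatibility of the pair `(x,y)` with the rank `ρ` -/
def Compat (le : ℕ → ℕ → Prop) (w : ℕ → ℕ) (v x y : ℕ) : Prop :=
  ∀ p, p < v + 1 → ∀ q, q < v + 1 → le x p → le q y → ¬ le q p → w q < w p

def Lo (le : ℕ → ℕ → Prop) (w : ℕ → ℕ) (v l : ℕ) : Prop :=
  le l v ∨ (¬ le v l ∧ Compat le w v v l)

def Up (le : ℕ → ℕ → Prop) (w : ℕ → ℕ) (v u : ℕ) : Prop :=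
  le v u ∨ (¬ le u v ∧ Compat le w v u v)

theorem insertion {le : ℕ → ℕ → Prop} (hrefl : ∀ x, le x x)
    (hanti : ∀ x y, le x y → le y x → x = y) (htrans : ∀ x y z, le x y → le y z → le x z)
    {w : ℕ → ℕ} {v l u : ℕ} (hl : l < v) (hu : u < v) (h1 : Lo le w v l) (h2 : Up le w v u) :
    ¬ le u l ∧ (le l u ∨ Compat le w v u l) := by
  rcases h1 with h1 | ⟨h1, h1'⟩
  · rcases h2 with h2 | ⟨h2, h2'⟩
    · refine ⟨fun h => ?_, Or.inl (htrans _ _ _ h1 h2)⟩
      have h3 := hanti _ _ h (htrans _ _ _ h1 h2)
      subst h3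
      have := hanti _ _ h1 h2
      omega
    · refine ⟨fun h => h2 (htrans _ _ _ h h1), Or.inr ?_⟩
      intro p hp q hq hxp hqy hqp
      exact h2' p hp q hq hxp (htrans _ _ _ hqy h1) hqp
  · rcases h2 with h2 | ⟨h2, h2'⟩
    · refine ⟨fun h => h1 (htrans _ _ _ h2 h), Or.inr ?_⟩
      intro p hp q hq hxp hqy hqp
      exact h1' p hp q hq (htrans _ _ _ h2 hxp) hqy hqp
    · refine ⟨fun h => ?_, Or.inr ?_⟩
      · have h3 := h1' v (by omega) u (by omega) (hrefl v) h h2
        have h4 := h2' u (by omega) v (by omega) (hrefl u) (hrefl v)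
          (fun h5 => h1 (htrans _ _ _ h5 h))
        omega
      · intro p hp q hq hxp hqy hqp
        by_cases hqv : le q v
        · exact h2' p hp q hq hxp hqv hqp
        by_cases hvp : le v p
        · exact h1' p hp q hq hvp hqy hqp
        have h3 := h1' v (by omega) q hq (hrefl v) hqy hqv
        have h4 := h2' p hp v (by omega) hxp (hrefl v) hvp
        omega

/-- the order relation built from the table `b` (used on `u < v` only) -/
def LT' (b : ℕ → ℕ → Prop) (x y : ℕ) : Prop := (x < y ∧ b x y) ∨ (y < x ∧ ¬ b y x)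

theorem onlineExt (le : ℕ → ℕ → Prop) (hle : ComputablePred (fun p : ℕ × ℕ => le p.1 p.2))
    (hrefl : ∀ x, le x x) (hanti : ∀ x y, le x y → le y x → x = y)
    (htrans : ∀ x y z, le x y → le y z → le x z)
    (w : ℕ → ℕ) (hw : Computable w) :
    ∃ L : ℕ → ℕ → Prop, ComputablePred (fun p : ℕ × ℕ => L p.1 p.2) ∧
      (∀ x, L x x) ∧ (∀ x y, L x y → L y x → x = y) ∧ (∀ x y z, L x y → L y z → L x z) ∧
      (∀ x y, L x y ∨ L y x) ∧ (∀ x y, le x y → L x y) ∧
      (∀ x y, ¬ le x y → (∀ p q, le x p → le q y → ¬ le q p → w q < w p) → ¬ L x y) := by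
  classical
  -- the recursion
  let G : List Bool → ℕ → ℕ → Prop := fun h x y =>
    (x < y ∧ h.getD (Nat.pair x y) false = true) ∨ (y < x ∧ ¬ h.getD (Nat.pair y x) false = true)
  let Φ : List Bool → Prop := fun h => ∃ l, l < (Nat.unpair h.length).2 ∧
    (Lo le w (Nat.unpair h.length).2 l ∧
      ((Nat.unpair h.length).1 = l ∨ G h (Nat.unpair h.length).1 l))
  have hΦ : ComputablePred Φ := by
    have hu1 : Computable (fun h : List Bool => (Nat.unpair h.length).1) :=
      Computable.fst.comp (Computable.unpair.comp Computable.list_length)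
    have hu2 : Computable (fun h : List Bool => (Nat.unpair h.length).2) :=
      Computable.snd.comp (Computable.unpair.comp Computable.list_length)
    have hleC : ∀ {α : Type} [Primcodable α] (f g : α → ℕ), Computable f → Computable g →
        ComputablePred (fun a => le (f a) (g a)) := fun f g hf hg =>
      CP.comp hle (hf.pair hg)
    have hcompat : ∀ {α : Type} [Primcodable α] (f g k : α → ℕ), Computable f → Computable g →
        Computable k → ComputablePred (fun a => Compat le w (f a) (g a) (k a)) := by
      intro α _ f g k hf hg hk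
      refine CP.all_lt (p := fun a p => ∀ q, q < f a + 1 → le (g a) p → le q (k a) → ¬ le q p →
        w q < w p) ?_ (Computable.succ.comp hf)
      refine CP.all_lt (p := fun (s : α × ℕ) q => le (g s.1) s.2 → le q (k s.1) → ¬ le q s.2 →
        w q < w s.2) ?_ (Computable.succ.comp (hf.comp Computable.fst))
      have e1 : Computable (fun s : (α × ℕ) × ℕ => s.1.1) := Computable.fst.comp Computable.fst
      have e2 : Computable (fun s : (α × ℕ) × ℕ => s.1.2) := Computable.snd.comp Computable.fst
      have e3 : Computable (fun s : (α × ℕ) × ℕ => s.2) := Computable.snd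
      refine CP.imp (hleC _ _ (hg.comp e1) e2) (CP.imp (hleC _ _ e3 (hk.comp e1))
        (CP.imp (CP.not (hleC _ _ e3 e2)) (CP.lt (hw.comp e3) (hw.comp e2))))
    have hLo : ∀ {α : Type} [Primcodable α] (f g : α → ℕ), Computable f → Computable g →
        ComputablePred (fun a => Lo le w (f a) (g a)) := fun f g hf hg =>
      CP.or (hleC _ _ hg hf) (CP.and (CP.not (hleC _ _ hf hg)) (hcompat _ _ _ hf hf hg))
    have hG : ∀ {α : Type} [Primcodable α] (h : α → List Bool) (f g : α → ℕ), Computable h →
        Computable f → Computable g → ComputablePred (fun a => G (h a) (f a) (g a)) := by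
      intro α _ h f g hh hf hg
      refine CP.or (CP.and (CP.lt hf hg) (CP.eq (comp_getD false hh
        (Primrec₂.natPair.to_comp.comp hf hg)) (Computable.const true)))
        (CP.and (CP.lt hg hf) (CP.not (CP.eq (comp_getD false hh
        (Primrec₂.natPair.to_comp.comp hg hf)) (Computable.const true))))
    refine CP.ex_lt (p := fun h l => Lo le w (Nat.unpair h.length).2 l ∧
      ((Nat.unpair h.length).1 = l ∨ G h (Nat.unpair h.length).1 l)) ?_ hu2
    refine CP.and (hLo _ _ (hu2.comp Computable.fst) Computable.snd)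
      (CP.or (CP.eq (hu1.comp Computable.fst) Computable.snd)
        (hG _ _ _ Computable.fst (hu1.comp Computable.fst) Computable.snd))
  obtain ⟨A, hA, f, hf, hAΦ⟩ := strongRecPred Φ hΦ
  let b : ℕ → ℕ → Prop := fun u v => A (Nat.pair u v)
  have hb : ∀ u v, u < v → (b u v ↔ ∃ l, l < v ∧ Lo le w v l ∧ (u = l ∨ LT' b u l)) := by
    intro u v huv
    show A (Nat.pair u v) ↔ _
    rw [hAΦ]
    show (∃ l, l < (Nat.unpair (List.length _)).2 ∧ _) ↔ _
    rw [List.length_map, List.length_range, Nat.unpair_pair]
    have key : ∀ l, l < v → (G ((List.range (Nat.pair u v)).map f) u l ↔ LT' b u l) := by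
      intro l hl
      show ((u < l ∧ _) ∨ (l < u ∧ _)) ↔ ((u < l ∧ _) ∨ (l < u ∧ _))
      apply or_congr
      · apply and_congr_right
        intro h
        rw [getD_hist _ _ _ _ (Nat.pair_lt_pair_right u hl)]
        exact (hf _).symm
      · apply and_congr_right
        intro h
        rw [getD_hist _ _ _ _ (lt_trans (Nat.pair_lt_pair_left u h) (Nat.pair_lt_pair_right u huv))]
        exact not_congr (hf _).symm
    constructor
    · rintro ⟨l, hl, h1, h2⟩
      exact ⟨l, hl, h1, h2.imp id (key l hl).1⟩
    · rintro ⟨l, hl, h1, h2⟩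
      exact ⟨l, hl, h1, h2.imp id (key l hl).2⟩
  -- basic facts on LT'
  have irr : ∀ x, ¬ LT' b x x := by
    rintro x (⟨h, _⟩ | ⟨h, _⟩) <;> omega
  have asym : ∀ x y, LT' b x y → ¬ LT' b y x := by
    rintro x y (⟨h, h'⟩ | ⟨h, h'⟩) (⟨g, g'⟩ | ⟨g, g'⟩)
    · omega
    · exact g' h'
    · exact h' g'
    · omega
  have tri : ∀ x y, x ≠ y → LT' b x y ∨ LT' b y x := by
    intro x y hxy
    rcases lt_or_gt_of_ne hxy with h | h
    · by_cases h2 : b x y
      · exact Or.inl (Or.inl ⟨h, h2⟩)
      · exact Or.inr (Or.inr ⟨h, h2⟩)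
    · by_cases h2 : b y x
      · exact Or.inr (Or.inl ⟨h, h2⟩)
      · exact Or.inl (Or.inr ⟨h, h2⟩)
  -- the invariant
  have inv : ∀ n, (∀ x y z, x < n → y < n → z < n → LT' b x y → LT' b y z → LT' b x z) ∧
      (∀ x y, x < n → y < n → x ≠ y → le x y → LT' b x y) ∧
      (∀ x y, x < n → y < n → ¬ le x y → Compat le w (max x y) x y → LT' b y x) := by
    intro n
    induction n with
    | zero =>
      refine ⟨fun x y z hx => by omega, fun x y hx => by omega, fun x y hx => by omega⟩
    | succ v ih =>
      obtain ⟨tr, ext, rev⟩ := ih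
      -- Up elements are not in the down set
      have hcm : ∀ m x y, m ≤ v → Compat le w v x y → Compat le w m x y := by
        intro m x y hm h p hp q hq
        exact h p (by omega) q (by omega)
      have lt_of : ∀ l u, l < v → u < v → Lo le w v l → Up le w v u → LT' b l u := by
        intro l u hl hu h1 h2
        obtain ⟨h3, h4⟩ := insertion hrefl hanti htrans hl hu h1 h2
        rcases h4 with h4 | h4
        · exact ext l u hl hu (fun h => h3 (h ▸ hrefl _)) h4
        · exact rev u l hu hl h3 (hcm _ _ _ (by omega) h4)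
      have lo_b : ∀ l, l < v → Lo le w v l → b l v := by
        intro l hl h
        rw [hb l v hl]
        exact ⟨l, hl, h, Or.inl rfl⟩
      have up_b : ∀ u, u < v → Up le w v u → ¬ b u v := by
        intro u hu h h2
        rw [hb u v hu] at h2
        obtain ⟨l, hl, h3, h4⟩ := h2
        have h5 := lt_of l u hl hu h3 h
        rcases h4 with h4 | h4
        · exact irr _ (h4 ▸ h5)
        · exact asym _ _ h4 h5
      have down : ∀ x y, x < v → y < v → LT' b x y → b y v → b x v := by
        intro x y hx hy hxy h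
        rw [hb y v hy] at h
        rw [hb x v hx]
        obtain ⟨l, hl, h3, h4⟩ := h
        refine ⟨l, hl, h3, Or.inr ?_⟩
        rcases h4 with h4 | h4
        · exact h4 ▸ hxy
        · exact tr x y l hx hy hl hxy h4
      have lv : ∀ x, x < v → (LT' b x v ↔ b x v) := by
        intro x hx
        constructor
        · rintro (⟨_, h⟩ | ⟨h, _⟩)
          · exact h
          · omega
        · exact fun h => Or.inl ⟨hx, h⟩
      have vl : ∀ x, x < v → (LT' b v x ↔ ¬ b x v) := by
        intro x hx
        constructor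
        · rintro (⟨h, _⟩ | ⟨_, h⟩)
          · omega
          · exact h
        · exact fun h => Or.inr ⟨hx, h⟩
      refine ⟨?_, ?_, ?_⟩
      · intro x y z hx hy hz hxy hyz
        rcases Nat.lt_succ_iff_lt_or_eq.1 hx with hx | rfl
        · rcases Nat.lt_succ_iff_lt_or_eq.1 hy with hy | rfl
          · rcases Nat.lt_succ_iff_lt_or_eq.1 hz with hz | rfl
            · exact tr x y z hx hy hz hxy hyz
            · exact (lv x hx).2 (down x y hx hy hxy ((lv y hy).1 hyz))
          · rcases Nat.lt_succ_iff_lt_or_eq.1 hz with hz | rfl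
            · have h1 := (lv x hx).1 hxy
              have h2 := (vl z hz).1 hyz
              by_cases h3 : x = z
              · subst h3; exact absurd h1 h2
              · rcases tri x z h3 with h4 | h4
                · exact h4
                · exact absurd (down z x hz hx h4 h1) h2
            · exact absurd hyz (irr _)
        · rcases Nat.lt_succ_iff_lt_or_eq.1 hy with hy | rfl
          · rcases Nat.lt_succ_iff_lt_or_eq.1 hz with hz | rfl
            · refine (vl z hz).2 (fun h => (vl y hy).1 hxy (down y z hy hz hyz h))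
            · exact absurd ((lv y hy).1 hyz) ((vl y hy).1 hxy)
          · exact absurd hxy (irr _)
      · intro x y hx hy hxy h
        rcases Nat.lt_succ_iff_lt_or_eq.1 hx with hx | rfl
        · rcases Nat.lt_succ_iff_lt_or_eq.1 hy with hy | rfl
          · exact ext x y hx hy hxy h
          · exact (lv x hx).2 (lo_b x hx (Or.inl h))
        · rcases Nat.lt_succ_iff_lt_or_eq.1 hy with hy | rfl
          · exact (vl y hy).2 (up_b y hy (Or.inl h))
          · exact absurd rfl hxy
      · intro x y hx hy h hc
        rcases Nat.lt_succ_iff_lt_or_eq.1 hx with hx | rfl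
        · rcases Nat.lt_succ_iff_lt_or_eq.1 hy with hy | rfl
          · exact rev x y hx hy h hc
          · rw [max_eq_right hx.le] at hc
            exact (vl x hx).2 (up_b x hx (Or.inr ⟨h, hc⟩))
        · rcases Nat.lt_succ_iff_lt_or_eq.1 hy with hy | rfl
          · rw [max_eq_left hy.le] at hc
            exact (lv y hy).2 (lo_b y hy (Or.inr ⟨h, hc⟩))
          · exact absurd (hrefl _) h
  -- the final order
  refine ⟨fun x y => x = y ∨ LT' b x y, ?_, fun x => Or.inl rfl, ?_, ?_, ?_, ?_, ?_⟩
  · refine CP.or (CP.eq Computable.fst Computable.snd) (CP.or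
      (CP.and (CP.lt Computable.fst Computable.snd) ?_)
      (CP.and (CP.lt Computable.snd Computable.fst) (CP.not ?_)))
    · exact CP.comp hA (Primrec₂.natPair.to_comp.comp Computable.fst Computable.snd)
    · exact CP.comp hA (Primrec₂.natPair.to_comp.comp Computable.snd Computable.fst)
  · rintro x y (h | h) (g | g)
    · exact h
    · exact h
    · exact g.symm
    · exact absurd g (asym _ _ h)
  · rintro x y z (h | h) (g | g)
    · exact Or.inl (h.trans g)
    · exact Or.inr (h ▸ g)
    · exact Or.inr (g ▸ h)
    · exact Or.inr ((inv (x + y + z + 1)).1 x y z (by omega) (by omega) (by omega) h g)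
  · intro x y
    by_cases h : x = y
    · exact Or.inl (Or.inl h)
    · rcases tri x y h with h | h
      · exact Or.inl (Or.inr h)
      · exact Or.inr (Or.inr h)
  · intro x y h
    by_cases hxy : x = y
    · exact Or.inl hxy
    · exact Or.inr ((inv (x + y + 1)).2.1 x y (by omega) (by omega) hxy h)
  · rintro x y h hc (h2 | h2)
    · exact h (h2 ▸ hrefl _)
    · exact asym _ _ h2 ((inv (x + y + 1)).2.2 x y (by omega) (by omega) h
        (fun p _ q _ a b c => hc p q a b c))

end Pool.Agent.RecDim
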