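import Pool.Agent.RecDim.Ext
import Pool.Agent.RecDim.Chain2

/-! Recursive dimension of 3-crown-free orders of bounded width is bounded. -/

set_option autoImplicit false

namespace Pool.Agent.RecDim

/-- `le` has no 3-crown inside `P` -/
def NoCrown (le : ℕ → ℕ → Prop) (P : ℕ → Prop) : Prop :=
  ∀ x y, P x → P y → Inc le x y → ∀ p q p' q', P p → P q → P p' → P q' →
    le x p → le x p' → le q y → le q' y → le q p' → le q' p → ¬ le q p → le q' p'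

theorem rank_exists {le : ℕ → ℕ → Prop} (po : PO le) {P : ℕ → Prop} {c : ℕ} {col : ℕ → ℕ}
    (hup : ∀ x p, P x → le x p → P p) (hdn : ∀ q y, P y → le q y → P q)
    (hch : ∀ x y, P x → P y → col x = col y → le x y ∨ le y x)
    (hno : NoCrown le P) {x y : ℕ} (hx : P x) (hy : P y) (hxy : Inc le x y) :
    ∃ ρ : Fin c → Fin c, ∀ p q, le x p → le q y → ¬ le q p → ∀ (hp : col p < c) (hq : col q < c),
      ρ ⟨col q, hq⟩ < ρ ⟨col p, hp⟩ := by
  classical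
  let E : ℕ → ℕ → Prop := fun s t => ∃ p q, le x p ∧ le q y ∧ ¬ le q p ∧ col p = s ∧ col q = t
  have irr : ∀ s, ¬ E s s := by
    rintro s ⟨p, q, h1, h2, h3, h4, h5⟩
    rcases hch p q (hup _ _ hx h1) (hdn _ _ hy h2) (h4.trans h5.symm) with h | h
    · exact hxy.1 (po.trans _ _ _ h1 (po.trans _ _ _ h h2))
    · exact h3 h
  have tr : ∀ s t u, E s t → E t u → E s u := by
    rintro s t u ⟨p, q, h1, h2, h3, h4, h5⟩ ⟨p', q', g1, g2, g3, g4, g5⟩
    refine ⟨p, q', h1, g2, fun h => g3 ?_, h4, g5⟩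
    have h6 : le q p' := by
      rcases hch p' q (hup _ _ hx g1) (hdn _ _ hy h2) (g4.trans h5.symm) with e | e
      · exact absurd (po.trans _ _ _ g1 (po.trans _ _ _ e h2)) hxy.1
      · exact e
    exact hno x y hx hy hxy p q p' q' (hup _ _ hx h1) (hdn _ _ hy h2) (hup _ _ hx g1)
      (hdn _ _ hy g2) h1 g1 h2 g2 h6 h h3
  have hlt : ∀ s : Fin c, ((Finset.range c).filter (fun t => E s t)).card < c := by
    intro s
    have h1 : (Finset.range c).filter (fun t => E s t) ⊆ (Finset.range c).erase s := by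
      intro t ht
      obtain ⟨h2, h3⟩ := Finset.mem_filter.1 ht
      refine Finset.mem_erase.2 ⟨?_, h2⟩
      rintro rfl
      exact irr _ h3
    have h2 := Finset.card_le_card h1
    rw [Finset.card_erase_of_mem (Finset.mem_range.2 s.2), Finset.card_range] at h2
    have := s.2
    omega
  refine ⟨fun s => ⟨_, hlt s⟩, fun p q h1 h2 h3 hp hq => ?_⟩
  show ((Finset.range c).filter (fun t => E (col q) t)).card <
    ((Finset.range c).filter (fun t => E (col p) t)).card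
  have hE : E (col p) (col q) := ⟨p, q, h1, h2, h3, rfl, rfl⟩
  apply Finset.card_lt_card
  rw [Finset.ssubset_iff_of_subset]
  · exact ⟨col q, Finset.mem_filter.2 ⟨Finset.mem_range.2 hq, hE⟩,
      fun h => irr _ (Finset.mem_filter.1 h).2⟩
  · intro t ht
    obtain ⟨h4, h5⟩ := Finset.mem_filter.1 ht
    exact Finset.mem_filter.2 ⟨h4, tr _ _ _ hE h5⟩

theorem main_thm : ∀ w : ℕ, ∃ d : ℕ, ∀ P : ℕ → Prop, ∀ r : ℕ → ℕ → Prop,
    ComputablePred P →
    ComputablePred (fun p : ℕ × ℕ => r p.1 p.2) →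
    (∀ x, P x → r x x) →
    (∀ x y, P x → P y → r x y → r y x → x = y) →
    (∀ x y z, P x → P y → P z → r x y → r y z → r x z) →
    (∀ s : Finset ℕ, (∀ x ∈ s, P x) →
        (∀ x ∈ s, ∀ y ∈ s, x ≠ y → ¬ r x y ∧ ¬ r y x) → s.card ≤ w) →
    (¬ ∃ a₁ a₂ a₃ b₁ b₂ b₃ : ℕ,
        P a₁ ∧ P a₂ ∧ P a₃ ∧ P b₁ ∧ P b₂ ∧ P b₃ ∧
        r a₁ b₂ ∧ r a₁ b₃ ∧ r a₂ b₁ ∧ r a₂ b₃ ∧ r a₃ b₁ ∧ r a₃ b₂ ∧
        (¬ r a₁ b₁ ∧ ¬ r b₁ a₁) ∧ (¬ r a₂ b₂ ∧ ¬ r b₂ a₂) ∧
        (¬ r a₃ b₃ ∧ ¬ r b₃ a₃) ∧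
        (¬ r a₁ a₂ ∧ ¬ r a₂ a₁) ∧ (¬ r a₁ a₃ ∧ ¬ r a₃ a₁) ∧
        (¬ r a₂ a₃ ∧ ¬ r a₃ a₂) ∧
        (¬ r b₁ b₂ ∧ ¬ r b₂ b₁) ∧ (¬ r b₁ b₃ ∧ ¬ r b₃ b₁) ∧
        (¬ r b₂ b₃ ∧ ¬ r b₃ b₂)) →
    ∃ L : Fin d → ℕ → ℕ → Prop,
      (∀ i, ComputablePred (fun p : ℕ × ℕ => L i p.1 p.2)) ∧
      (∀ i, ∀ x, P x → L i x x) ∧
      (∀ i, ∀ x y, P x → P y → L i x y → L i y x → x = y) ∧
      (∀ i, ∀ x y z, P x → P y → P z → L i x y → L i y z → L i x z) ∧
      (∀ i, ∀ x y, P x → P y → L i x y ∨ L i y x) ∧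
      (∀ x y, P x → P y → (r x y ↔ ∀ i, L i x y)) := by
  intro w
  obtain ⟨c, hc⟩ := chainPart w
  refine ⟨c ^ c, fun P r hP hr rrefl ranti rtrans hwidth hcrown => ?_⟩
  let le : ℕ → ℕ → Prop := fun x y => x = y ∨ (P x ∧ P y ∧ r x y)
  have hle : ComputablePred (fun p : ℕ × ℕ => le p.1 p.2) :=
    CP.or (CP.eq Computable.fst Computable.snd) (CP.and (CP.comp hP Computable.fst)
      (CP.and (CP.comp hP Computable.snd) hr))
  have po : PO le := by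
    refine ⟨fun x => Or.inl rfl, ?_, ?_⟩
    · rintro x y (h | ⟨h1, h2, h3⟩) (g | ⟨g1, g2, g3⟩)
      · exact h
      · exact h
      · exact g.symm
      · exact ranti x y h1 h2 h3 g3
    · rintro x y z (h | ⟨h1, h2, h3⟩) (g | ⟨g1, g2, g3⟩)
      · exact Or.inl (h.trans g)
      · subst h; exact Or.inr ⟨g1, g2, g3⟩
      · subst g; exact Or.inr ⟨h1, h2, h3⟩
      · exact Or.inr ⟨h1, g2, rtrans x y z h1 h2 g2 h3 g3⟩
  have hler : ∀ x y, P x → P y → (le x y ↔ r x y) := by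
    intro x y hx hy
    constructor
    · rintro (h | ⟨_, _, h⟩)
      · subst h; exact rrefl x hx
      · exact h
    · exact fun h => Or.inr ⟨hx, hy, h⟩
  have hup : ∀ x p, P x → le x p → P p := by
    rintro x p hx (h | h)
    · exact h ▸ hx
    · exact h.2.1
  have hdn : ∀ q y, P y → le q y → P q := by
    rintro x p hx (h | h)
    · exact h ▸ hx
    · exact h.1
  have hw : Width le P w := by
    intro s hs ha
    refine hwidth s hs (fun x hx y hy hxy => ?_)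
    have := ha x hx y hy hxy
    rw [Inc, hler x y (hs x hx) (hs y hy), hler y x (hs y hy) (hs x hx)] at this
    exact this
  have hno : NoCrown le P := by
    intro x y hx hy hxy p q p' q' hp hq hp' hq' h1 h2 h3 h4 h5 h6 h7
    by_contra h8
    apply hcrown
    refine ⟨x, q, q', y, p, p', hx, hq, hq', hy, hp, hp', (hler _ _ hx hp).1 h1,
      (hler _ _ hx hp').1 h2, (hler _ _ hq hy).1 h3, (hler _ _ hq hp').1 h5,
      (hler _ _ hq' hy).1 h4, (hler _ _ hq' hp).1 h6, ?_⟩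
    simp only [← hler _ _ hx hy, ← hler _ _ hy hx, ← hler _ _ hq hp, ← hler _ _ hp hq,
      ← hler _ _ hq' hp', ← hler _ _ hp' hq', ← hler _ _ hx hq, ← hler _ _ hq hx,
      ← hler _ _ hx hq', ← hler _ _ hq' hx, ← hler _ _ hq hq', ← hler _ _ hq' hq,
      ← hler _ _ hy hp, ← hler _ _ hp hy, ← hler _ _ hy hp', ← hler _ _ hp' hy,
      ← hler _ _ hp hp', ← hler _ _ hp' hp]
    have t := po.trans
    refine ⟨hxy, ⟨h7, fun e => hxy.1 (t _ _ _ h1 (t _ _ _ e h3))⟩,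
      ⟨h8, fun e => hxy.1 (t _ _ _ h2 (t _ _ _ e h4))⟩,
      ⟨fun e => hxy.1 (t _ _ _ e h3), fun e => h7 (t _ _ _ e h1)⟩,
      ⟨fun e => hxy.1 (t _ _ _ e h4), fun e => h8 (t _ _ _ e h2)⟩,
      ⟨fun e => h7 (t _ _ _ e h6), fun e => h8 (t _ _ _ e h5)⟩,
      ⟨fun e => h7 (t _ _ _ h3 e), fun e => hxy.1 (t _ _ _ h1 e)⟩,
      ⟨fun e => h8 (t _ _ _ h4 e), fun e => hxy.1 (t _ _ _ h2 e)⟩,
      ⟨fun e => h8 (t _ _ _ h6 e), fun e => h7 (t _ _ _ h5 e)⟩⟩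
  obtain ⟨col, hcol, hcol1, hcol2⟩ := hc le hle po P hP hw
  let wt : (Fin c → Fin c) → ℕ → ℕ := fun ρ x => (List.ofFn (fun i => (ρ i : ℕ))).getD (col x) 0
  have hwt : ∀ ρ, Computable (wt ρ) := fun ρ => comp_getD 0 (Computable.const _) hcol
  have hwt2 : ∀ ρ x (hx : col x < c), wt ρ x = ρ ⟨col x, hx⟩ := by
    intro ρ x hx
    show (List.ofFn (fun i => (ρ i : ℕ))).getD (col x) 0 = _
    rw [List.getD_eq_getElem _ _ (by rw [List.length_ofFn]; exact hx)]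
    simp
  have hex := fun ρ => onlineExt le hle po.refl po.anti po.trans (wt ρ) (hwt ρ)
  choose L0 hL0 using hex
  refine ⟨fun i => L0 (finFunctionFinEquiv.symm i), fun i => (hL0 _).1,
    fun i x _ => (hL0 _).2.1 x, fun i x y _ _ => (hL0 _).2.2.1 x y,
    fun i x y z _ _ _ => (hL0 _).2.2.2.1 x y z, fun i x y _ _ => (hL0 _).2.2.2.2.1 x y, ?_⟩
  intro x y hx hy
  constructor
  · intro h i
    exact (hL0 _).2.2.2.2.2.1 x y ((hler x y hx hy).2 h)
  · intro h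
    by_contra hxy
    rw [← hler x y hx hy] at hxy
    by_cases hyx : le y x
    · have h1 : L0 (finFunctionFinEquiv.symm (finFunctionFinEquiv (fun i => i))) x y :=
        h (finFunctionFinEquiv (fun i => i))
      rw [Equiv.symm_apply_apply] at h1
      have h2 := (hL0 (fun i => i)).2.2.2.2.2.1 y x hyx
      have h3 := (hL0 (fun i => i)).2.2.1 x y h1 h2
      exact hxy (h3 ▸ po.refl _)
    · obtain ⟨ρ, hρ⟩ := rank_exists (c := c) po hup hdn hcol2 hno hx hy ⟨hxy, hyx⟩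
      have h1 : L0 (finFunctionFinEquiv.symm (finFunctionFinEquiv ρ)) x y :=
        h (finFunctionFinEquiv ρ)
      rw [Equiv.symm_apply_apply] at h1
      refine (hL0 ρ).2.2.2.2.2.2 x y hxy (fun p q hp hq hqp => ?_) h1
      have hp1 := hcol1 p (hup _ _ hx hp)
      have hq1 := hcol1 q (hdn _ _ hy hq)
      rw [hwt2 ρ q hq1, hwt2 ρ p hp1]
      exact hρ p q hp hq hqp hp1 hq1

end Pool.Agent.RecDim
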